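import Mathlib

/-! Aspherical presentations. -/

namespace Pool.Agent.Lib.TwoDim

/-- The class in the relation module `N ^ ab`, `N = ker p`, of the conjugate `f r f⁻¹`. -/
def relClass {F G : Type} [Group F] [Group G] (p : F →* G) (f : F) (r : p.ker) :
    Additive (Abelianization p.ker) :=
  Additive.ofMul (Abelianization.of (MulAut.conjNormal f r))

/-- The relators `r i` normally generate the kernel of `p`, the map `σ` is a section of `p`, and
the relation module is the free `ℤG`-module on the relators. -/
structure IsAspherical {F G R : Type} [Group F] [Group G] (p : F →* G) (r : R → p.ker)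
    (σ : G → F) : Prop where
  sec : ∀ g, p (σ g) = g
  gen : Subgroup.normalClosure (Set.range fun i => (r i : F)) = p.ker
  ind : LinearIndependent ℤ fun q : G × R => relClass p (σ q.1) (r q.2)

/-- The group has an aspherical presentation. -/
def Aspherical (G : Type) [Group G] : Prop :=
  ∃ (F R : Type) (_ : Group F) (_ : IsFreeGroup F) (p : F →* G) (r : R → p.ker) (σ : G → F),
    IsAspherical p r σ

end Pool.Agent.Lib.TwoDim
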