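import Pool.Agent.Lib.TwoDim.Xi

/-! The free resolution attached to an aspherical presentation. -/

noncomputable section

namespace Pool.Agent.Lib.TwoDim

open Function MonoidAlgebra Tr Xi

variable {F G R : Type} [Group F] [Group G] {p : F →* G} {r : R → p.ker} {σ : G → F}

theorem IsAspherical.res [IsFreeGroup F] (h : IsAspherical p r σ) :
    ∃ (X : Type) (d2 : (R →₀ MonoidAlgebra ℤ G) →ₗ[MonoidAlgebra ℤ G] (X →₀ MonoidAlgebra ℤ G))
      (d1 : (X →₀ MonoidAlgebra ℤ G) →ₗ[MonoidAlgebra ℤ G] MonoidAlgebra ℤ G),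
      Injective d2 ∧ Exact d2 d1 ∧
      LinearMap.range d1 = Submodule.span _ (Set.range fun g => o ℤ g - 1) := by
  let b := IsFreeGroup.basis F
  obtain ⟨c, h1, h2⟩ := exists_der b (M := IsFreeGroup.Generators F →₀ MonoidAlgebra ℤ G)
    (fun g => DistribSMul.toAddMonoidHom _ (o ℤ (p g)))
    (fun m => by simp [← one_def]) (fun g g' m => by simp [← mul_smul, o_mul])
    fun x => Finsupp.single x 1
  simp only [DistribSMul.toAddMonoidHom_apply] at h1
  have c1 : c 1 = 0 := by
    have := h1 1 1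
    rw [mul_one, map_one, o, ← one_def, one_smul] at this
    exact left_eq_add.1 this
  have cx : ∀ g x, c (g * b x) = c g + Finsupp.single x (o ℤ (p g)) := fun g x => by
    rw [h1, h2, Finsupp.smul_single, smul_eq_mul, mul_one]
  have cd : ∀ g g', p g = p g' → c (g * g'⁻¹) = c g - c g' := fun g g' e => by
    have := h1 (g * g'⁻¹) g'
    rw [inv_mul_cancel_right, map_mul, map_inv, e, mul_inv_cancel, o, ← one_def, one_smul] at this
    exact eq_sub_of_add_eq this.symm
  let d1 := Finsupp.linearCombination (MonoidAlgebra ℤ G) fun x => o ℤ (p (b x)) - 1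
  let d2 := Finsupp.linearCombination (MonoidAlgebra ℤ G) fun i => c (r i)
  have e1 : ∀ x g, d1 (Finsupp.single x (o ℤ g)) = o ℤ (g * p (b x)) - o ℤ g := fun x g => by
    rw [Finsupp.linearCombination_single, smul_eq_mul, mul_sub, o_mul, mul_one]
  have e2 : ∀ f, d1 (c f) = o ℤ (p f) - 1 := fun f => by
    induction f using basis_ind b with
    | h1 => rw [c1, map_zero, map_one]; exact (sub_self _).symm
    | h2 g x ih => rw [cx, map_add, ih, e1, map_mul, sub_add_sub_cancel']
    | h3 g x ih =>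
      rw [cx, map_add, e1, map_mul, ← eq_sub_iff_add_eq, sub_sub_sub_cancel_left] at ih
      exact ih
  let cb : Additive (Abelianization p.ker) →ₗ[ℤ] (IsFreeGroup.Generators F →₀ MonoidAlgebra ℤ G) :=
    (MonoidHom.toAdditiveLeft (Abelianization.lift
      (MonoidHom.mk' (fun n : p.ker => Multiplicative.ofAdd (c n.1)) fun n m => by
        rw [Subgroup.coe_mul, h1, show p n.1 = 1 from n.2, o, ← one_def, one_smul]
        rfl))).toIntLinearMap
  have e3 : ∀ n : p.ker, cb (Additive.ofMul (Abelianization.of n)) = c n.1 := fun _ => rfl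
  have e4 : ∀ g i, cb (relClass p (σ g) (r i)) = d2 (Finsupp.single i (o ℤ g)) := fun g i => by
    rw [relClass, e3, MulAut.conjNormal_apply, cd _ _ (by rw [map_mul, (r i).2, mul_one]), h1,
      h.sec, add_sub_cancel_left, Finsupp.linearCombination_single]
  let nn : G → F → p.ker := fun g f => ⟨σ g * f * (σ (g * p f))⁻¹, by simp [h.sec]⟩
  let κ : (IsFreeGroup.Generators F →₀ MonoidAlgebra ℤ G) →ₗ[ℤ] Additive (Abelianization p.ker) :=
    Finsupp.lsum ℤ fun x => (MonoidAlgebra.basis G ℤ).constr ℤ fun g =>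
      Additive.ofMul (Abelianization.of (nn g (b x)))
  have e5 : ∀ x g, κ (Finsupp.single x (o ℤ g)) = Additive.ofMul (Abelianization.of (nn g (b x))) :=
    fun x g => (Finsupp.lsum_single ..).trans ((MonoidAlgebra.basis G ℤ).constr_basis ℤ _ g)
  have e6 : ∀ f x, nn 1 (f * b x) = nn 1 f * nn (p f) (b x) := fun f x =>
    Subtype.ext (by simp [nn, mul_assoc])
  have e7 : ∀ f, κ (c f) = Additive.ofMul (Abelianization.of (nn 1 f)) := fun f => by
    induction f using basis_ind b with
    | h1 => rw [c1, map_zero, show nn 1 1 = 1 from Subtype.ext (by simp [nn])]; rfl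
    | h2 g x ih => rw [cx, map_add, ih, e5, e6, map_mul, ofMul_mul]
    | h3 g x ih =>
      rw [cx, map_add, e5, e6, map_mul, ofMul_mul] at ih
      exact add_right_cancel ih
  have e8 : ∀ a, κ (cb a) = a := fun a => by
    obtain ⟨n, rfl⟩ : ∃ g : p.ker, Additive.ofMul (Abelianization.of g) = a :=
      QuotientGroup.mk_surjective a.toMul
    rw [e3, e7]
    refine Eq.trans ?_ ((relClass_congr (f := σ 1) (f' := 1) (by simp [h.sec]) n).trans
      (by simp [relClass]))
    exact congrArg (fun x => Additive.ofMul (Abelianization.of x))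
      (Subtype.ext (by simp [nn, show p n.1 = 1 from n.2]))
  let τ : MonoidAlgebra ℤ G →ₗ[ℤ] (IsFreeGroup.Generators F →₀ MonoidAlgebra ℤ G) :=
    (MonoidAlgebra.basis G ℤ).constr ℤ fun g => c (σ g)
  have e9 : ∀ g, τ (o ℤ g) = c (σ g) := fun g => (MonoidAlgebra.basis G ℤ).constr_basis ℤ _ g
  have e10 : ∀ z, cb (κ z) = z - τ (d1 z) := fun z => by
    induction z using Finsupp.induction_linear with
    | zero => simp
    | add x y hx hy =>
      simp only [map_add, hx, hy]
      abel
    | single x e =>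
      induction e using alg_ind with
      | h0 g =>
        rw [e5, e3, e1, map_sub, e9, e9, cd _ _ (by simp [h.sec]), cx, h.sec]
        abel
      | h1 x y hx hy =>
        simp only [Finsupp.single_add, map_add, hx, hy]
        abel
      | h2 a y hy => simp only [← Finsupp.smul_single, map_zsmul, hy, smul_sub]
  let β := Finsupp.basis (ι := R) fun _ => MonoidAlgebra.basis G ℤ
  have e11 : Injective (κ ∘ₗ d2.restrictScalars ℤ) := by
    have hv := h.ind.comp (fun q : (_ : R) × G => (q.2, q.1)) fun ⟨_, _⟩ ⟨_, _⟩ e => by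
      obtain ⟨rfl, rfl⟩ := Prod.ext_iff.1 e
      rfl
    have : κ ∘ₗ d2.restrictScalars ℤ = Finsupp.linearCombination ℤ
        (fun q : (_ : R) × G => relClass p (σ q.2) (r q.1)) ∘ₗ β.repr.toLinearMap :=
      β.ext fun q => by
        rw [LinearMap.comp_apply, LinearMap.comp_apply, LinearEquiv.coe_coe, β.repr_self,
          Finsupp.linearCombination_single, one_smul, Finsupp.coe_basis]
        exact (congrArg κ (e4 q.2 q.1).symm).trans (e8 _)
    rw [this, LinearMap.coe_comp]
    exact Injective.comp hv β.repr.injective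
  refine ⟨_, d2, d1, Injective.of_comp (f := κ) e11, fun z => ⟨fun hz => ?_, ?_⟩,
    le_antisymm ?_ (Submodule.span_le.2 ?_)⟩
  · have h3 := Submodule.mem_map_of_mem (f := cb) (h.span (Submodule.mem_top (x := κ z)))
    rw [Submodule.map_span, e10, hz, map_zero, sub_zero] at h3
    refine (Submodule.span_le.2 ?_ : _ ≤ LinearMap.range (d2.restrictScalars ℤ)) h3
    rintro _ ⟨_, ⟨q, rfl⟩, rfl⟩
    exact ⟨_, (e4 q.1 q.2).symm⟩
  · rintro ⟨z, rfl⟩
    refine LinearMap.congr_fun (Finsupp.lhom_ext' fun i => LinearMap.ext_ring ?_ : d1 ∘ₗ d2 = 0) z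
    simp [d2, e2, show p (r i).1 = 1 from (r i).2, ← one_def]
  · rw [Finsupp.range_linearCombination]
    exact Submodule.span_mono fun _ ⟨x, e⟩ => ⟨_, e⟩
  · rintro _ ⟨g, rfl⟩
    exact ⟨c (σ g), by rw [e2, h.sec]⟩

end Pool.Agent.Lib.TwoDim
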