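import Pool.Agent.Lib.TwoDim.Defs

/-! The class generated by the groups with an aspherical presentation. -/

namespace Pool.Agent.Lib.TwoDim

/-- `G` acts on the tree `T` by graph automorphisms and inverts no edge. -/
structure TreeAction (G V : Type) [Group G] [MulAction G V] (T : SimpleGraph V) : Prop where
  isTree : T.IsTree
  adj : ∀ (g : G) (u v : V), T.Adj u v → T.Adj (g • u) (g • v)
  noInversion : ∀ (g : G) (u v : V), T.Adj u v → g • u = v → g • v ≠ u

/-- The class generated by the groups with an aspherical presentation under unions and actions on
trees. -/
inductive Built : (G : Type) → [Group G] → Prop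
  | seed (G : Type) [Group G] : Aspherical G → Built G
  | union (G : Type) [Group G] (H : Finset G → Subgroup G) :
      (∀ s, ∀ g ∈ s, g ∈ H s) → (∀ s, Built (H s)) → Built G
  | tree (G V : Type) [Group G] [MulAction G V] (T : SimpleGraph V) : TreeAction G V T →
      (∀ v : V, Built (MulAction.stabilizer G v)) → Built G

end Pool.Agent.Lib.TwoDim
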