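import Pool.Agent.Lib.TwoDim.Red

/-! The main argument, for an abstract aspherical presentation of an algebra. -/

namespace Pool.Agent.Lib.TwoDim

open Function TensorProduct

variable {A E S : Type} [CommRing A] [Ring E] [Ring S] [Algebra A E] [Algebra A S]

/-- relators generating the kernel, with dual functionals -/
structure Rels (A : Type) [CommRing A] [Algebra A S] (π : E →+* S) where
  G : Type
  R : Type
  b : Module.Basis G A S
  σ : G → E
  hσ : ∀ g, π (σ g) = b g
  s : R → E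
  hs : ∀ ρ, π (s ρ) = 0
  gen : ∀ j, π j = 0 → j ∈ Submodule.span E {x | ∃ ρ e, x = s ρ * e}
  ξ : G × R → E →+ E
  mul : ∀ p, RL π (ξ p)
  dual1 : ∀ p, π (ξ p (σ p.1 * s p.2)) = 1
  dual0 : ∀ p q, q ≠ p → π (ξ p (σ q.1 * s q.2)) = 0

/-- entrywise reduction -/
def vec (π : E →+* S) (n : ℕ) : (Fin n → E) →ₛₗ[π] (Fin n → S) where
  toFun x k := π (x k)
  map_add' x y := funext fun k => map_add π _ _
  map_smul' c x := funext fun k => map_mul π _ _

variable {π : E →+* S} [RingHomSurjective π] {n : ℕ}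

theorem vec_surj : Surjective (vec π n) := fun y => by
  choose x hx using fun k => RingHomSurjective.is_surjective (σ := π) (y k)
  exact ⟨x, funext hx⟩

namespace Rels

variable (C : Rels A π)

theorem mem_span (x : Fin n → E) (hx : vec π n x = 0) :
    x ∈ Submodule.span E {z : Fin n → E | ∃ ρ y, z = C.s ρ • y} := by
  rw [← Finset.univ_sum_single x]
  refine Submodule.sum_mem _ fun k _ => ?_
  have h := Submodule.mem_map_of_mem (f := LinearMap.single E (fun _ : Fin n => E) k)
    (C.gen (x k) (congrFun hx k))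
  rw [Submodule.map_span] at h
  refine Submodule.span_mono ?_ h
  rintro _ ⟨_, ⟨ρ, e, rfl⟩, rfl⟩
  exact ⟨ρ, Pi.single k e, by rw [← smul_eq_mul, map_smul]; rfl⟩

/-- the span of the relator multiples -/
def U (R₀ : Finset C.R) (W : Submodule A (Fin n → E)) : Submodule E (Fin n → E) :=
  Submodule.span E {z | ∃ ρ ∈ R₀, ∃ w ∈ W, z = C.s ρ • w}

/-- admissible lifts -/
structure Adm (Q : Submodule S (Fin n → S)) (R₀ : Finset C.R) (W : Submodule A (Fin n → E))
    (V : Submodule E (Fin n → E)) : Prop where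
  fg : V.FG
  map : V.map (vec π n) = Q
  le : C.U R₀ W ≤ V
  ker : ∀ v ∈ V, vec π n v = 0 → v ∈ RingHom.ker π • V ⊔ C.U R₀ W

theorem vec_U {R₀ : Finset C.R} {W : Submodule A (Fin n → E)} {x : Fin n → E}
    (hx : x ∈ C.U R₀ W) : vec π n x = 0 := by
  refine (Submodule.span_le.2 ?_ : C.U R₀ W ≤ LinearMap.ker (vec π n)) hx
  rintro _ ⟨ρ, -, w, -, rfl⟩
  change vec π n _ = 0
  rw [map_smulₛₗ, C.hs, zero_smul]

theorem exists_adm (Q : Submodule S (Fin n → S)) [Module.FinitePresentation S Q] :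
    ∃ (R₀ : Finset C.R) (W : Submodule A (Fin n → E)) (V : Submodule E (Fin n → E)),
      W.FG ∧ C.Adm Q R₀ W V := by
  classical
  obtain ⟨m, q, hq⟩ := Submodule.fg_iff_exists_fin_generating_family.1
    (Module.Finite.iff_fg.1 (inferInstance : Module.Finite S Q))
  choose v hv using fun k => vec_surj (π := π) (q k)
  let V₀ := Submodule.span E (Set.range v)
  have h0 : V₀.map (vec π n) = Q := by
    rw [Submodule.map_span, ← Set.range_comp, ← hq]
    exact congrArg (fun f => Submodule.span S (Set.range f)) (funext hv)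
  have hfg : V₀.FG := Submodule.fg_span (Set.finite_range v)
  have := Module.Finite.iff_fg.2 hfg
  obtain ⟨V', _, _, θ, hθ⟩ := exists_red π V₀
  have := Module.Finite.of_surjective θ hθ.surj
  obtain ⟨q₀, hq₀⟩ := hθ.lift (N := Q) ((vec π n ∘ₛₗ V₀.subtype).codRestrict Q fun x =>
    h0 ▸ Submodule.mem_map_of_mem x.2)
  have hs : Surjective q₀ := fun y => by
    obtain ⟨x, hx, e⟩ : y.1 ∈ V₀.map (vec π n) := h0 ▸ y.2
    exact ⟨θ ⟨x, hx⟩, (hq₀ _).trans (Subtype.ext e)⟩
  obtain ⟨l, k, hk⟩ := Submodule.fg_iff_exists_fin_generating_family.1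
    (Module.FinitePresentation.fg_ker q₀ hs)
  choose x hx using fun i => hθ.surj (k i)
  have hx0 : ∀ i, vec π n (x i).1 = 0 := fun i => by
    have h : k i ∈ LinearMap.ker q₀ := hk ▸ Submodule.subset_span ⟨i, rfl⟩
    rw [LinearMap.mem_ker, ← hx, hq₀] at h
    exact congrArg Subtype.val h
  choose T hT1 hT2 using fun i => Submodule.mem_span_finite_of_mem_span (C.mem_span _ (hx0 i))
  let T₀ := Finset.univ.biUnion T
  have hT : ∀ t : T₀, ∃ ρ y, t.1 = C.s ρ • y := fun t => by
    obtain ⟨i, -, hi⟩ := Finset.mem_biUnion.1 t.2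
    exact hT1 i hi
  choose ρ y hy using hT
  let R₀ := Finset.univ.image ρ
  let W := Submodule.span A (Set.range y)
  have hU : (C.U R₀ W).FG := by
    have : C.U R₀ W = Submodule.span E (Set.range fun p : R₀ × T₀ => C.s p.1.1 • y p.2) := by
      refine le_antisymm (Submodule.span_le.2 ?_) (Submodule.span_mono ?_)
      · rintro _ ⟨r, hr, w, hw, rfl⟩
        induction hw using Submodule.span_induction with
        | mem _ h =>
          obtain ⟨t, rfl⟩ := h
          exact Submodule.subset_span ⟨(⟨r, hr⟩, t), rfl⟩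
        | zero => rw [smul_zero]; exact Submodule.zero_mem _
        | add a b _ _ ha hb => rw [smul_add]; exact Submodule.add_mem _ ha hb
        | smul a b _ hb =>
          rw [smul_comm, ← algebraMap_smul E]
          exact Submodule.smul_mem _ _ hb
      · rintro _ ⟨p, rfl⟩
        exact ⟨p.1.1, p.1.2, y p.2, Submodule.subset_span ⟨_, rfl⟩, rfl⟩
    rw [this]
    exact Submodule.fg_span (Set.finite_range _)
  have hxU : ∀ i, (x i).1 ∈ C.U R₀ W := fun i => by
    refine Submodule.span_mono (fun t ht => ?_) (hT2 i)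
    have ht' : t ∈ T₀ := Finset.mem_biUnion.2 ⟨i, Finset.mem_univ _, ht⟩
    exact ⟨ρ ⟨t, ht'⟩, Finset.mem_image_of_mem _ (Finset.mem_univ _), y ⟨t, ht'⟩,
      Submodule.subset_span ⟨_, rfl⟩, hy ⟨t, ht'⟩⟩
  refine ⟨R₀, W, V₀ ⊔ C.U R₀ W, Submodule.fg_span (Set.finite_range _), hfg.sup hU, ?_,
    le_sup_right, fun z hz hz0 => ?_⟩
  · rw [Submodule.map_sup, h0, sup_eq_left]
    rintro _ ⟨u, hu, rfl⟩
    rw [C.vec_U hu]
    exact Q.zero_mem
  · obtain ⟨a, ha, u, hu, rfl⟩ := Submodule.mem_sup.1 hz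
    rw [map_add, C.vec_U hu, add_zero] at hz0
    refine Submodule.add_mem _ ?_ (Submodule.mem_sup_right hu)
    have h1 : θ ⟨a, ha⟩ ∈ (Submodule.span E (Set.range x)).map θ := by
      rw [Submodule.map_span, ← Set.range_comp, show θ ∘ x = k from funext hx, hk,
        LinearMap.mem_ker, hq₀]
      exact Subtype.ext hz0
    obtain ⟨c, hc, e⟩ := h1
    have h2 := Submodule.mem_map_of_mem (f := V₀.subtype)
      (hθ.ker (⟨a, ha⟩ - c) (by rw [map_sub, e, sub_self]))
    rw [Submodule.map_smul'', Submodule.map_subtype_top] at h2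
    have h3 : c.1 ∈ C.U R₀ W :=
      (Submodule.span_le.2 (by rintro _ ⟨i, rfl⟩; exact hxU i) :
        Submodule.span E (Set.range x) ≤ (C.U R₀ W).comap V₀.subtype) hc
    rw [← sub_add_cancel a c.1]
    exact Submodule.add_mem_sup (Submodule.smul_mono le_rfl le_sup_left h2) h3

theorem Adm.grow {Q : Submodule S (Fin n → S)} {R₀ : Finset C.R} {W : Submodule A (Fin n → E)}
    {V V' : Submodule E (Fin n → E)} (h : C.Adm Q R₀ W V) (h1 : V'.FG) (h2 : V ≤ V')
    (h3 : V' ≤ V ⊔ RingHom.ker π • V') : C.Adm Q R₀ W V' := by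
  refine ⟨h1, le_antisymm ?_ (h.map ▸ Submodule.map_mono h2), h.le.trans h2, fun z hz hz0 => ?_⟩
  · rintro _ ⟨z, hz, rfl⟩
    obtain ⟨a, ha, u, hu, rfl⟩ := Submodule.mem_sup.1 (h3 hz)
    rw [map_add, red_zero _ hu, add_zero]
    exact h.map ▸ Submodule.mem_map_of_mem ha
  · obtain ⟨a, ha, u, hu, rfl⟩ := Submodule.mem_sup.1 (h3 hz)
    rw [map_add, red_zero _ hu, add_zero] at hz0
    exact Submodule.add_mem _ (sup_le_sup_right (Submodule.smul_mono le_rfl h2) _ (h.ker a ha hz0))
      (Submodule.mem_sup_left hu)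

theorem peel {R₀ : Finset C.R} {V V' : Submodule E (Fin n → E)} (z : C.G →₀ (R₀ → Fin n → E))
    (hz : ∀ g r, z g r ∈ V')
    (h : (z.sum fun g w => ∑ r, (C.σ g * C.s r.1) • w r) ∈ RingHom.ker π • V) (g : C.G) (r : R₀) :
    z g r ∈ V ⊔ RingHom.ker π • V' := by
  obtain ⟨Φ, hΦ⟩ := (C.mul (g, r.1)).exists_lift (Fin n → E)
  have h1 : ∀ x ∈ RingHom.ker π • V, Φ x ∈ V := fun x hx =>
    Submodule.smul_induction_on hx (fun j hj y hy => hΦ j y hj ▸ V.smul_mem _ hy)
      fun a b ha hb => map_add Φ a b ▸ V.add_mem ha hb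
  have h2 := h1 _ h
  have h0 : ∀ g' (r' : R₀), π (C.σ g' * C.s r'.1) = 0 := fun _ _ => by
    rw [map_mul, C.hs, mul_zero]
  let N := V ⊔ RingHom.ker π • V'
  have h3 : N.mkQ (Φ _) = 0 := (Submodule.Quotient.mk_eq_zero N).2 (Submodule.mem_sup_left h2)
  have h4 : ∀ (c : E) g' r', π c = 0 → N.mkQ (c • z g' r') = 0 := fun c g' r' hc =>
    (Submodule.Quotient.mk_eq_zero N).2
      (Submodule.mem_sup_right (Submodule.smul_mem_smul hc (hz g' r')))
  simp only [Finsupp.sum, map_sum, hΦ _ _ (h0 _ _)] at h3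
  rw [Finset.sum_eq_single g, Finset.sum_eq_single r] at h3
  · have h5 := h4 (C.ξ (g, r.1) (C.σ g * C.s r.1) - 1) g r
      (by rw [map_sub, map_one, C.dual1 (g, r.1), sub_self])
    rw [sub_smul, map_sub, h3, one_smul, zero_sub, neg_eq_zero] at h5
    exact (Submodule.Quotient.mk_eq_zero N).1 h5
  · intro r' _ hr
    exact h4 _ _ _ (C.dual0 (g, r.1) (g, r'.1) fun e => hr (Subtype.ext (congrArg Prod.snd e)))
  · intro hr
    exact absurd (Finset.mem_univ r) hr
  · intro g' _ hg
    exact Finset.sum_eq_zero fun r' _ =>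
      h4 _ _ _ (C.dual0 (g, r.1) (g', r'.1) fun e => hg (congrArg Prod.fst e))
  · intro hg
    simp [Finsupp.notMem_support_iff.1 hg]

theorem exists_max (hA : IsNoetherianRing A) (Q : Submodule S (Fin n → S))
    [Module.FinitePresentation S Q] :
    ∃ (R₀ : Finset C.R) (W : Submodule A (Fin n → E)) (V : Submodule E (Fin n → E)),
      W.FG ∧ C.Adm Q R₀ W V ∧ ∀ z : C.G →₀ (R₀ → Fin n → E), (∀ g r, z g r ∈ W) →
        (z.sum fun g w => ∑ r, (C.σ g * C.s r.1) • w r) ∈ RingHom.ker π • V →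
        ∀ g r, z g r ∈ V := by
  obtain ⟨R₀, W, V₁, hW, h₁⟩ := C.exists_adm Q
  have := Module.Finite.iff_fg.2 hW
  obtain ⟨_, ⟨V, hV, rfl⟩, hmax⟩ := set_has_maximal_iff_noetherian.2
    (inferInstance : IsNoetherian A W)
    {X | ∃ V, C.Adm Q R₀ W V ∧ X = (V.restrictScalars A).comap W.subtype} ⟨_, V₁, h₁, rfl⟩
  refine ⟨R₀, W, V, hW, hV, fun z hz h g r => ?_⟩
  let V' := V ⊔ Submodule.span E (Set.range fun p : z.support × R₀ => z p.1.1 p.2)
  have hz' : ∀ g r, z g r ∈ V' := fun g r => by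
    by_cases hg : g ∈ z.support
    · exact Submodule.mem_sup_right (Submodule.subset_span ⟨(⟨g, hg⟩, r), rfl⟩)
    · rw [Finsupp.notMem_support_iff.1 hg]
      exact V'.zero_mem
  have hV' : C.Adm Q R₀ W V' := hV.grow C (hV.fg.sup (Submodule.fg_span (Set.finite_range _)))
    le_sup_left (sup_le le_sup_left (Submodule.span_le.2 (by
      rintro _ ⟨p, rfl⟩
      exact C.peel z hz' h _ _)))
  have hle : (V.restrictScalars A).comap W.subtype ≤ (V'.restrictScalars A).comap W.subtype :=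
    fun w hw => (le_sup_left : V ≤ V') hw
  exact ((hle.eq_of_not_lt (hmax _ ⟨V', hV', rfl⟩)).ge :
    _ ≤ (V.restrictScalars A).comap W.subtype) (show ⟨z g r, hz g r⟩ ∈ _ from hz' g r)

end Rels

theorem core (C : Rels A π) (D : Dual π) (hπ : ∀ a, π (algebraMap A E a) = algebraMap A S a)
    (hA : Good A) (hE : ∀ V : Submodule E (Fin n → E), V.FG → FFR E V)
    (Q : Submodule S (Fin n → S)) [Module.FinitePresentation S Q] : FFR S Q := by
  obtain ⟨R₀, W, V, hW, hV, hmax⟩ := C.exists_max hA.noeth Q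
  have := Module.Finite.iff_fg.2 hW
  have := hA.noeth
  have : Module.Free A S := Module.Free.of_basis C.b
  obtain ⟨V', _, _, θ, hθ⟩ := exists_red π V
  let _ : Module A V' := Module.compHom V' (algebraMap A S)
  have hs : ∀ (a : A) (x : V'), a • x = algebraMap A S a • x := fun _ _ => rfl
  have : IsScalarTower A S V' := ⟨fun a s x => by rw [hs, Algebra.smul_def, mul_smul]⟩
  obtain ⟨q, hq⟩ := hθ.lift (N := Q) ((vec π n ∘ₛₗ V.subtype).codRestrict Q fun x =>
    hV.map ▸ Submodule.mem_map_of_mem x.2)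
  have hm : ∀ (r : R₀) (w : W), C.s r.1 • w.1 ∈ V := fun r w =>
    hV.le (Submodule.subset_span ⟨r.1, r.2, w.1, w.2, rfl⟩)
  let ψ : (R₀ → W) →ₗ[A] V' :=
    { toFun := fun w => ∑ r, θ ⟨_, hm r (w r)⟩
      map_add' := fun a b => by
        rw [← Finset.sum_add_distrib]
        refine Finset.sum_congr rfl fun r _ => ?_
        rw [← map_add]
        exact congrArg θ (Subtype.ext (smul_add _ _ _))
      map_smul' := fun a b => by
        rw [RingHom.id_apply, Finset.smul_sum]
        refine Finset.sum_congr rfl fun r _ => ?_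
        rw [hs, ← hπ, ← map_smulₛₗ]
        exact congrArg θ (Subtype.ext ((smul_comm _ a _).trans (algebraMap_smul E a _).symm)) }
  have hψ : ∀ w, ψ w = ∑ r, θ ⟨_, hm r (w r)⟩ := fun _ => rfl
  let W' : Submodule A (R₀ → W) :=
    Submodule.pi Set.univ fun _ => (V.restrictScalars A).comap W.subtype
  have hz : ∀ x : V, x.1 ∈ RingHom.ker π • V → θ x = 0 := fun x hx => by
    obtain ⟨y, hy, e⟩ : x.1 ∈ (RingHom.ker π • (⊤ : Submodule E V)).map V.subtype := by
      rwa [Submodule.map_smul'', Submodule.map_subtype_top]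
    exact Subtype.ext e ▸ red_zero θ hy
  refine FFR.coker2 (W'.subtype.baseChange S) (indMap S ψ) q
    (Module.Flat.lTensor_preserves_injective_linearMap _ (Submodule.injective_subtype _))
    (fun t => ⟨fun h => ?_, ?_⟩) (fun y => ⟨fun h => ?_, ?_⟩) (fun y => ?_)
    ((hA.ffr W' inferInstance).baseChange S) ((hA.ffr (R₀ → W) inferInstance).baseChange S)
    ((hE V hV.fg).red D _ V.subtype (Submodule.injective_subtype _) V' θ hθ)
  · classical
    obtain ⟨z, rfl⟩ := (equivFinsuppOfBasisLeft C.b).symm.surjective t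
    rw [equivFinsuppOfBasisLeft_symm_apply] at h ⊢
    have h1 : θ (z.sum fun g w => ∑ r, C.σ g • (⟨_, hm r (w r)⟩ : V)) = 0 := by
      rw [← h]
      simp only [Finsupp.sum, map_sum, indMap_tmul, hψ, map_smulₛₗ, C.hσ, Finset.smul_sum]
    have h2 := Submodule.mem_map_of_mem (f := V.subtype) (hθ.ker _ h1)
    rw [Submodule.map_smul'', Submodule.map_subtype_top] at h2
    have h3 := hmax (z.mapRange (fun w r => (w r).1) rfl) (fun g r => (z g r).2) (by
      rw [Finsupp.sum_mapRange_index fun _ => by simp]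
      simpa only [Finsupp.sum, map_sum, map_smul, Submodule.subtype_apply, mul_smul] using h2)
    refine (Submodule.sum_mem (LinearMap.range (W'.subtype.baseChange S)) fun g _ => ?_ :)
    exact ⟨C.b g ⊗ₜ ⟨z g, fun r _ => h3 g r⟩, rfl⟩
  · rintro ⟨t, rfl⟩
    induction t using TensorProduct.induction_on with
    | zero => rw [map_zero, map_zero]
    | add a b ha hb => rw [map_add, map_add, ha, hb, add_zero]
    | tmul s w =>
      rw [LinearMap.baseChange_tmul, indMap_tmul, hψ, Finset.sum_eq_zero, smul_zero]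
      exact fun r _ => hz _ (Submodule.smul_mem_smul (C.hs _) (w.2 r trivial))
  · obtain ⟨v, rfl⟩ := hθ.surj y
    rw [hq] at h
    obtain ⟨a, ha, u, hu, e⟩ := Submodule.mem_sup.1 (hV.ker v.1 v.2 (congrArg Subtype.val h))
    have hv : v = ⟨a, Submodule.smul_le_right ha⟩ + ⟨u, hV.le hu⟩ := Subtype.ext e.symm
    rw [hv, map_add, hz _ ha, zero_add]
    clear e hv
    change _ ∈ LinearMap.range (indMap S ψ)
    induction hu using Submodule.span_induction with
    | mem _ h =>
      classical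
      obtain ⟨r, hr, w, hw, rfl⟩ := h
      refine ⟨1 ⊗ₜ Pi.single (⟨r, hr⟩ : R₀) ⟨w, hw⟩, ?_⟩
      rw [indMap_tmul, one_smul, hψ, Finset.sum_eq_single (⟨r, hr⟩ : R₀)]
      · simp only [Pi.single_eq_same]
      · intro r' _ hr'
        rw [← map_zero θ]
        exact congrArg θ (Subtype.ext (by simp [Pi.single_eq_of_ne hr']))
      · intro h
        exact absurd (Finset.mem_univ _) h
    | zero => exact (map_zero θ).symm ▸ Submodule.zero_mem _
    | add a b _ _ ha hb =>
      have := Submodule.add_mem _ ha hb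
      rwa [← map_add] at this
    | smul c a _ ha =>
      have := Submodule.smul_mem _ (π c) ha
      rwa [← map_smulₛₗ] at this
  · rintro ⟨t, rfl⟩
    induction t using TensorProduct.induction_on with
    | zero => rw [map_zero, map_zero]
    | add a b ha hb => rw [map_add, map_add, ha, hb, add_zero]
    | tmul s w =>
      rw [indMap_tmul, map_smul, hψ, map_sum, Finset.sum_eq_zero, smul_zero]
      intro r _
      rw [hq]
      exact Subtype.ext (C.vec_U (Submodule.subset_span ⟨r.1, r.2, _, (w r).2, rfl⟩))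
  · obtain ⟨x, hx, e⟩ : y.1 ∈ V.map (vec π n) := hV.map ▸ y.2
    exact ⟨θ ⟨x, hx⟩, (hq _).trans (Subtype.ext e)⟩

end Pool.Agent.Lib.TwoDim
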