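import Pool.Agent.Lib.TwoDim.FR

/-! The homology of a finite free complex that is exact outside one degree. -/

namespace Pool.Agent.Lib.TwoDim

open Function

variable {R : Type} [Ring R]

theorem FFR.ker_proj {K L Q : Type} [AddCommGroup K] [Module R K] [AddCommGroup L] [Module R L]
    [AddCommGroup Q] [Module R Q] [Module.Finite R L] [Module.Free R L] (i : K →ₗ[R] L)
    (p : L →ₗ[R] Q) (hi : Injective i) (hip : Exact i p) (hp : Surjective p) (h1 : FFR R Q)
    (h2 : Module.Projective R Q) : FFR R K ∧ Module.Projective R K := by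
  obtain ⟨e, -⟩ := ((hip.split_tfae hi hp).out 0 2).1
    (Module.projective_lifting_property p (LinearMap.id : Q →ₗ[R] Q) hp)
  have := h1.stablyFree h2
  have := h1.finite
  obtain ⟨N, _, _, _, _, _⟩ := Module.IsStablyFree.exist_free_prod R Q
  let e' := (e.prodCongr (LinearEquiv.refl R N)).trans (LinearEquiv.prodAssoc R K Q N)
  exact ⟨.step (Q × N) (K × Q × N) K (LinearMap.inr R _ _) (LinearMap.fst R _ _)
    LinearMap.inr_injective Function.Exact.inr_fst LinearMap.fst_surjective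
    (Module.Finite.equiv e') (Module.Free.of_equiv e') (.free _ inferInstance inferInstance),
    Module.Projective.of_split (e.symm.toLinearMap ∘ₗ LinearMap.inl R K Q)
      (LinearMap.fst R K Q ∘ₗ e.toLinearMap) (LinearMap.ext fun x => by simp)⟩

theorem ffr_of_complex {T P : Type} [AddCommGroup T] [Module R T] [AddCommGroup P] [Module R P]
    (C : ℤ → Submodule R T) (h1 : ∀ j, Module.Finite R (C j)) (h2 : ∀ j, Module.Free R (C j))
    (N : ℤ) (h3 : ∀ j, N ≤ j → C j = ⊥) (h4 : ∀ j, j ≤ -N → C j = ⊥) (δ : T →ₗ[R] T)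
    (h5 : ∀ j, ∀ x ∈ C j, δ x ∈ C (j + 1)) (h6 : ∀ x, δ (δ x) = 0)
    (h7 : ∀ j, j + 1 ≠ 0 → ∀ z ∈ C (j + 1), δ z = 0 → ∃ y ∈ C j, δ y = z) (u : T →ₗ[R] P)
    (h8 : ∀ x, u (δ x) = 0) (h9 : ∀ y, ∃ z ∈ C 0, δ z = 0 ∧ u z = y)
    (h10 : ∀ z ∈ C 0, δ z = 0 → u z = 0 → ∃ y ∈ C (-1), δ y = z) : FFR R P := by
  let Z : ℤ → Submodule R T := fun j => C j ⊓ LinearMap.ker δ
  let d : ∀ j, C j →ₗ[R] (C j).map δ := fun j => δ.restrict fun x hx => Submodule.mem_map_of_mem hx
  have d1 : ∀ j, Surjective (d j) := fun j ⟨_, x, hx, e⟩ => ⟨⟨x, hx⟩, Subtype.ext e⟩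
  have d2 : ∀ j, Exact (Submodule.inclusion (inf_le_left : Z j ≤ C j)) (d j) := fun j x =>
    ⟨fun h => ⟨⟨x.1, x.2, congrArg Subtype.val h⟩, rfl⟩, fun ⟨y, h⟩ => h ▸ Subtype.ext y.2.2⟩
  have d3 : ∀ j, (C j).map δ ≤ Z (j + 1) := by
    rintro j _ ⟨x, hx, rfl⟩
    exact ⟨h5 j x hx, h6 x⟩
  have d4 : ∀ j, j + 1 ≠ 0 → Z (j + 1) = (C j).map δ := fun j hj =>
    le_antisymm (fun z hz => h7 j hj z hz.1 hz.2) (d3 j)
  have bot : ∀ j, C j = ⊥ → FFR R (Z j) ∧ Module.Projective R (Z j) := fun j hj => by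
    have e : Z j = ⊥ := by simp only [Z, hj, bot_inf_eq]
    rw [e]
    exact ⟨.free _ inferInstance inferInstance, inferInstance⟩
  have up : ∀ j, -|N| - 1 ≤ j → j < 0 → FFR R (Z j) := fun j hj => by
    induction j, hj using Int.leInduction with
    | base => exact fun _ => (bot _ (h4 _ (by have := le_abs_self N; omega))).1
    | succ j _ ih =>
      intro hj
      rw [d4 j hj.ne]
      exact .step _ _ _ _ (d j) (Submodule.inclusion_injective _) (d2 j) (d1 j) (h1 j) (h2 j)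
        (ih (by omega))
  have down : ∀ j, j ≤ |N| → 0 ≤ j → FFR R (Z j) ∧ Module.Projective R (Z j) := fun j hj => by
    induction j, hj using Int.leInductionDown with
    | base => exact fun _ => bot _ (h3 _ (le_abs_self N))
    | pred j _ ih =>
      intro hj
      have := ih (by omega)
      rw [← sub_add_cancel j 1, d4 _ (by omega)] at this
      exact FFR.ker_proj _ (d (j - 1)) (Submodule.inclusion_injective _) (d2 _) (d1 _) this.1 this.2
  have hB : FFR R ((C (-1)).map δ) :=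
    .step _ _ _ _ (d (-1)) (Submodule.inclusion_injective _) (d2 _) (d1 _) (h1 _) (h2 _)
      (up _ (by have := abs_nonneg N; omega) (by omega))
  refine FFR.coker (Submodule.inclusion (d3 (-1) : _ ≤ Z 0)) (u ∘ₗ (Z 0).subtype)
    (Submodule.inclusion_injective _) (fun z => ⟨fun h => ⟨⟨z.1, h10 _ z.2.1 z.2.2 h⟩, rfl⟩, ?_⟩)
    (fun y => ?_) hB (down 0 (abs_nonneg N) le_rfl).1
  · rintro ⟨⟨_, x, -, rfl⟩, rfl⟩
    exact h8 x
  · obtain ⟨z, a, b, c⟩ := h9 y
    exact ⟨⟨z, a, b⟩, c⟩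

end Pool.Agent.Lib.TwoDim
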