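import Mathlib

/-! Derivations on free groups, and geodesic chains in the Cayley tree. -/

namespace Pool.Agent.Lib.TwoDim

variable {F X : Type} [Group F] (b : FreeGroupBasis X F)

theorem closure_basis : Subgroup.closure (Set.range b) = ⊤ := by
  have h : Set.range b = b.repr.symm.toMonoidHom '' Set.range FreeGroup.of := by
    rw [← Set.range_comp]
    rfl
  rw [h, ← MonoidHom.map_closure, FreeGroup.closure_range_of]
  exact Subgroup.map_top_of_surjective _ b.repr.symm.surjective

theorem basis_ind {p : F → Prop} (h1 : p 1) (h2 : ∀ g x, p g → p (g * b x))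
    (h3 : ∀ g x, p (g * b x) → p g) (g : F) : p g := by
  have hg : g ∈ Subgroup.closure (Set.range b) := by rw [closure_basis]; trivial
  induction hg using Subgroup.closure_induction_right with
  | one => exact h1
  | mul_right g _ y hy ih =>
    obtain ⟨x, rfl⟩ := hy
    exact h2 g x ih
  | mul_inv_cancel g _ y hy ih =>
    obtain ⟨x, rfl⟩ := hy
    exact h3 _ x (by rwa [inv_mul_cancel_right])

theorem exists_der {M : Type} [AddCommGroup M] (ρ : F → M →+ M) (h1 : ∀ m, ρ 1 m = m)
    (h2 : ∀ g h m, ρ (g * h) m = ρ g (ρ h m)) (d : X → M) :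
    ∃ c : F → M, (∀ g h, c (g * h) = c g + ρ g (c h)) ∧ ∀ x, c (b x) = d x := by
  let φ : F →* MulAut (Multiplicative M) :=
    { toFun := fun g => AddEquiv.toMultiplicative
        { toFun := ρ g
          invFun := ρ g⁻¹
          left_inv := fun m => by rw [← h2, inv_mul_cancel, h1]
          right_inv := fun m => by rw [← h2, mul_inv_cancel, h1]
          map_add' := map_add _ }
      map_one' := MulEquiv.ext fun m => h1 m
      map_mul' := fun g h => MulEquiv.ext fun m => h2 g h m }
  let L : F →* Multiplicative M ⋊[φ] F := b.lift fun x => ⟨Multiplicative.ofAdd (d x), b x⟩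
  have hL : ∀ x, L (b x) = ⟨Multiplicative.ofAdd (d x), b x⟩ := fun x =>
    congrFun (b.lift.symm_apply_apply _) x
  have hr : ∀ g, (L g).right = g := fun g => DFunLike.congr_fun
    (b.ext_hom (SemidirectProduct.rightHom.comp L) (MonoidHom.id F) fun x =>
      congrArg SemidirectProduct.right (hL x)) g
  refine ⟨fun g => (L g).left.toAdd, fun g h => ?_, fun x => by simp only [hL]; rfl⟩
  simp only [map_mul, SemidirectProduct.mul_left, hr]
  rfl

/-- geodesic chains from the base point -/
structure Geo (c : F → F × X →₀ ℤ) : Prop where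
  one : c 1 = 0
  step : ∀ g x, c (g * b x) = c g + Finsupp.single (g, x) 1
  tr : ∀ y θ v x, c (y * θ) (y * v, x) = c y (y * v, x) + c θ (v, x)

theorem exists_geo : ∃ c, Geo b c := by
  obtain ⟨c, h1, h2⟩ := exists_der b (M := F × X →₀ ℤ)
    (fun g => Finsupp.mapDomain.addMonoidHom fun e => (g * e.1, e.2))
    (fun m => by
      simp only [Finsupp.mapDomain.addMonoidHom_apply, one_mul]
      exact Finsupp.mapDomain_id)
    (fun g h m => by
      simp only [Finsupp.mapDomain.addMonoidHom_apply, ← Finsupp.mapDomain_comp, mul_assoc]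
      rfl) fun x => Finsupp.single (1, x) 1
  refine ⟨c, ?_, fun g x => ?_, fun y θ v x => ?_⟩
  · have := h1 1 1
    simp only [Finsupp.mapDomain.addMonoidHom_apply, one_mul] at this
    exact left_eq_add.1 (this.trans (congrArg _ Finsupp.mapDomain_id))
  · rw [h1, h2, Finsupp.mapDomain.addMonoidHom_apply, Finsupp.mapDomain_single, mul_one]
  · rw [h1, Finsupp.add_apply, Finsupp.mapDomain.addMonoidHom_apply]
    exact congrArg _ (Finsupp.mapDomain_apply (f := fun e : F × X => (y * e.1, e.2))
      (fun e e' h => Prod.ext (mul_left_cancel (congrArg Prod.fst h)) (congrArg Prod.snd h :))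
      (c θ) (v, x))

variable {b} {c : F → F × X →₀ ℤ}

theorem Geo.bd (h : Geo b c) {Y : Type} [AddCommGroup Y] (f : F → Y) (u : F) :
    Finsupp.linearCombination ℤ (fun e : F × X => f (e.1 * b e.2) - f e.1) (c u) = f u - f 1 := by
  induction u using basis_ind b with
  | h1 => rw [h.one, map_zero, sub_self]
  | h2 g x ih =>
    rw [h.step, map_add, ih, Finsupp.linearCombination_single, one_smul, sub_add_sub_cancel']
  | h3 g x ih =>
    rw [h.step, map_add, Finsupp.linearCombination_single, one_smul, ← eq_sub_iff_add_eq] at ih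
    rw [ih]
    abel

/-- closed under passing to the edges of geodesics -/
def Cl (b : FreeGroupBasis X F) (c : F → F × X →₀ ℤ) (Θ : Set F) : Prop :=
  ∀ θ ∈ Θ, ∀ v x, c θ (v, x) ≠ 0 → v ∈ Θ ∧ v * b x ∈ Θ

theorem Geo.exists_cl1 (h : Geo b c) (g : F) : ∃ Θ : Set F, Θ.Finite ∧ Cl b c Θ ∧ g ∈ Θ := by
  classical
  induction g using basis_ind b with
  | h1 => exact ⟨{1}, Set.finite_singleton _, fun θ hθ v x k => by
      rw [show θ = 1 from hθ, h.one] at k; exact absurd rfl k, rfl⟩
  | h2 g x ih =>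
    obtain ⟨Θ, h1, h2, h3⟩ := ih
    refine ⟨insert (g * b x) Θ, h1.insert _, fun θ hθ v y k => ?_, Set.mem_insert _ _⟩
    rcases hθ with rfl | hθ
    · by_cases e : (g, x) = (v, y)
      · obtain ⟨rfl, rfl⟩ := Prod.ext_iff.1 e
        exact ⟨Or.inr h3, Or.inl rfl⟩
      · rw [h.step, Finsupp.add_apply, Finsupp.single_apply, if_neg e, add_zero] at k
        exact (h2 g h3 v y k).imp Or.inr Or.inr
    · exact (h2 θ hθ v y k).imp Or.inr Or.inr
  | h3 g x ih =>
    obtain ⟨Θ, h1, h2, h3⟩ := ih
    refine ⟨insert g Θ, h1.insert _, fun θ hθ v y k => ?_, Set.mem_insert _ _⟩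
    rcases hθ with rfl | hθ
    · by_cases e : (θ, x) = (v, y)
      · obtain ⟨rfl, rfl⟩ := Prod.ext_iff.1 e
        exact ⟨Or.inl rfl, Or.inr h3⟩
      · refine (h2 _ h3 v y ?_).imp Or.inr Or.inr
        rwa [h.step, Finsupp.add_apply, Finsupp.single_apply, if_neg e, add_zero]
    · exact (h2 θ hθ v y k).imp Or.inr Or.inr

theorem Geo.exists_cl (h : Geo b c) {s : Set F} (hs : s.Finite) :
    ∃ Θ : Set F, Θ.Finite ∧ Cl b c Θ ∧ s ⊆ Θ := by
  choose T h1 h2 h3 using h.exists_cl1
  refine ⟨⋃ g ∈ s, T g, hs.biUnion fun g _ => h1 g, fun θ hθ v x k => ?_,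
    fun g hg => Set.mem_biUnion hg (h3 g)⟩
  obtain ⟨g, hg, hθ⟩ := Set.mem_iUnion₂.1 hθ
  exact (h2 g θ hθ v x k).imp (Set.mem_biUnion hg) (Set.mem_biUnion hg)

end Pool.Agent.Lib.TwoDim
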