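import Mathlib

/-! Finite free resolutions. -/

namespace Pool.Agent.Lib.TwoDim

open Function TensorProduct

/-- The module has a finite resolution by finitely generated free modules. -/
inductive FFR (R : Type) [Ring R] : (M : Type) → [AddCommGroup M] → [Module R M] → Prop
  | free (M : Type) [AddCommGroup M] [Module R M] :
      Module.Finite R M → Module.Free R M → FFR R M
  | step (K L M : Type) [AddCommGroup K] [Module R K] [AddCommGroup L] [Module R L]
      [AddCommGroup M] [Module R M] (i : K →ₗ[R] L) (p : L →ₗ[R] M) :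
      Injective i → Exact i p → Surjective p → Module.Finite R L → Module.Free R L →
      FFR R K → FFR R M

variable {R : Type} [Ring R]

namespace FFR

theorem equiv {M N : Type} [AddCommGroup M] [Module R M] [AddCommGroup N] [Module R N]
    (h : FFR R M) (e : M ≃ₗ[R] N) : FFR R N := by
  cases h with
  | free _ h1 h2 => exact .free N (Module.Finite.equiv e) (Module.Free.of_equiv e)
  | step K L _ i p hi hx hp h1 h2 hK =>
    refine .step K L N i (e.toLinearMap ∘ₗ p) hi (fun x => ?_) (e.surjective.comp hp) h1 h2 hK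
    rw [← hx x]
    simp

theorem of_bij {M N : Type} [AddCommGroup M] [Module R M] [AddCommGroup N] [Module R N]
    (h : FFR R M) (f : M →ₗ[R] N) (h1 : Injective f) (h2 : Surjective f) : FFR R N :=
  h.equiv (LinearEquiv.ofBijective f ⟨h1, h2⟩)

theorem cover {M : Type} [AddCommGroup M] [Module R M] (h : FFR R M) :
    ∃ (L : Type) (_ : AddCommGroup L) (_ : Module R L) (p : L →ₗ[R] M), Surjective p ∧
      Module.Finite R L ∧ Module.Free R L ∧ FFR R (LinearMap.ker p) := by
  cases h with
  | free _ h1 h2 =>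
    refine ⟨M, _, _, LinearMap.id, surjective_id, h1, h2, ?_⟩
    rw [LinearMap.ker_id]
    exact .free _ inferInstance inferInstance
  | step K L _ i p hi hx hp h1 h2 hK =>
    refine ⟨L, _, _, p, hp, h1, h2, hK.of_bij (i.codRestrict _ fun x => hx.apply_apply_eq_zero x)
      (fun a b e => hi (congrArg Subtype.val e)) fun y => ?_⟩
    obtain ⟨x, hx'⟩ := (hx y.1).1 y.2
    exact ⟨x, Subtype.ext hx'⟩

theorem finite {M : Type} [AddCommGroup M] [Module R M] (h : FFR R M) : Module.Finite R M := by
  obtain ⟨L, _, _, p, hp, h1, -, -⟩ := h.cover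
  exact Module.Finite.of_surjective p hp

/-- the horseshoe step -/
theorem horse {X L Y K P : Type} [AddCommGroup X] [Module R X] [AddCommGroup L] [Module R L]
    [AddCommGroup Y] [Module R Y] [AddCommGroup K] [Module R K] [AddCommGroup P] [Module R P]
    (f : X →ₗ[R] L) (g : L →ₗ[R] Y) (hf : Injective f) (hfg : Exact f g) (hg : Surjective g)
    (hX : FFR R X) (i : K →ₗ[R] P) (p : P →ₗ[R] Y) (hi : Injective i) (hip : Exact i p)
    (hp : Surjective p) [Module.Finite R P] [Module.Free R P]
    (ih : ∀ (X L : Type) [AddCommGroup X] [Module R X] [AddCommGroup L] [Module R L]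
      (f : X →ₗ[R] L) (g : L →ₗ[R] K), Injective f → Exact f g → Surjective g → FFR R X →
      FFR R L) : FFR R L := by
  obtain ⟨P₁, _, _, q, hq, h1, h2, hK₁⟩ := hX.cover
  obtain ⟨l, hl⟩ := Module.projective_lifting_property g p hg
  have hl' : ∀ y, g (l y) = p y := fun y => LinearMap.congr_fun hl y
  let t : (P₁ × P) →ₗ[R] L := (f ∘ₗ q).coprod l
  have ht : ∀ a b, t (a, b) = f (q a) + l b := fun _ _ => rfl
  have hts : Surjective t := fun z => by
    obtain ⟨b, hb⟩ := hp (g z)
    obtain ⟨x, hx⟩ := (hfg (z - l b)).1 (by rw [map_sub, hl', hb, sub_self])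
    obtain ⟨a, rfl⟩ := hq x
    exact ⟨(a, b), by rw [ht, hx, sub_add_cancel]⟩
  let e := LinearEquiv.ofInjective i hi
  have hm : ∀ z : LinearMap.ker t, z.1.2 ∈ LinearMap.range i := fun z => by
    have h0 : f (q z.1.1) + l z.1.2 = 0 := z.2
    have := congrArg g h0
    rw [map_add, hfg.apply_apply_eq_zero, zero_add, hl', map_zero] at this
    exact (hip _).1 this
  let g' : LinearMap.ker t →ₗ[R] K := e.symm.toLinearMap ∘ₗ
    ((LinearMap.snd R P₁ P ∘ₗ (LinearMap.ker t).subtype).codRestrict _ hm)
  have hg' : ∀ z, i (g' z) = z.1.2 := fun z =>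
    congrArg Subtype.val (e.apply_symm_apply ⟨z.1.2, hm z⟩)
  let f' : LinearMap.ker q →ₗ[R] LinearMap.ker t :=
    (LinearMap.inl R P₁ P ∘ₗ (LinearMap.ker q).subtype).codRestrict _ fun a => by
      change f (q a.1) + l 0 = 0
      rw [show q a.1 = 0 from a.2, map_zero, map_zero, add_zero]
  refine .step _ _ L (LinearMap.ker t).subtype t (Submodule.injective_subtype _)
    (LinearMap.exact_subtype_ker_map t) hts inferInstance inferInstance
    (ih _ _ f' g' (fun a b h => Subtype.ext (congrArg (fun z => z.1.1) h)) (fun z => ?_)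
      (fun k => ?_) hK₁)
  · constructor
    · intro h
      have h2 : z.1.2 = 0 := by rw [← hg', h, map_zero]
      have h0 : f (q z.1.1) + l z.1.2 = 0 := z.2
      rw [h2, map_zero, add_zero, map_eq_zero_iff f hf] at h0
      exact ⟨⟨z.1.1, h0⟩, Subtype.ext (Prod.ext rfl h2.symm)⟩
    · rintro ⟨a, rfl⟩
      exact hi (by rw [hg', map_zero]; rfl)
  · obtain ⟨x, hx⟩ := (hfg (-l (i k))).1 (by rw [map_neg, hl', hip.apply_apply_eq_zero, neg_zero])
    obtain ⟨a, rfl⟩ := hq x
    exact ⟨⟨(a, i k), by rw [LinearMap.mem_ker, ht, hx, neg_add_cancel]⟩, hi (hg' _)⟩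

theorem ext' {Y : Type} [AddCommGroup Y] [Module R Y] (hY : FFR R Y) :
    ∀ (X L : Type) [AddCommGroup X] [Module R X] [AddCommGroup L] [Module R L]
      (f : X →ₗ[R] L) (g : L →ₗ[R] Y), Injective f → Exact f g → Surjective g → FFR R X →
      FFR R L := by
  induction hY with
  | free Y h1 h2 =>
    intro X L _ _ _ _ f g hf hfg hg hX
    refine horse (K := PUnit) f g hf hfg hg hX 0 LinearMap.id (fun _ _ _ => rfl)
      (fun y => ⟨fun h => ⟨0, h.symm⟩, fun ⟨_, h⟩ => h.symm⟩) surjective_id ?_
    intro X L _ _ _ _ f g hf hfg _ hX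
    exact hX.of_bij f hf fun z => (hfg z).1 rfl
  | step K P Y i p hi hip hp h1 h2 _ ih =>
    intro X L _ _ _ _ f g hf hfg hg hX
    exact horse f g hf hfg hg hX i p hi hip hp ih

/-- cokernels of injections -/
theorem coker {X L Y : Type} [AddCommGroup X] [Module R X] [AddCommGroup L] [Module R L]
    [AddCommGroup Y] [Module R Y] (f : X →ₗ[R] L) (g : L →ₗ[R] Y) (hf : Injective f)
    (hfg : Exact f g) (hg : Surjective g) (hX : FFR R X) (hL : FFR R L) : FFR R Y := by
  obtain ⟨P, _, _, q, hq, h1, h2, hK⟩ := hL.cover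
  let e := LinearEquiv.ofInjective f hf
  have hm : ∀ z : LinearMap.ker (g ∘ₗ q), q z.1 ∈ LinearMap.range f := fun z => (hfg _).1 z.2
  let g' : LinearMap.ker (g ∘ₗ q) →ₗ[R] X := e.symm.toLinearMap ∘ₗ
    ((q ∘ₗ (LinearMap.ker (g ∘ₗ q)).subtype).codRestrict _ hm)
  have hg' : ∀ z, f (g' z) = q z.1 := fun z =>
    congrArg Subtype.val (e.apply_symm_apply ⟨q z.1, hm z⟩)
  have hle : LinearMap.ker q ≤ LinearMap.ker (g ∘ₗ q) := LinearMap.ker_le_ker_comp q g
  refine .step _ P Y (LinearMap.ker (g ∘ₗ q)).subtype (g ∘ₗ q) (Submodule.injective_subtype _)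
    (LinearMap.exact_subtype_ker_map _) (hg.comp hq) h1 h2
    (hX.ext' _ _ (Submodule.inclusion hle) g' (Submodule.inclusion_injective _) (fun z => ?_)
      (fun x => ?_) hK)
  · constructor
    · intro h
      exact ⟨⟨z.1, by rw [LinearMap.mem_ker, ← hg', h, map_zero]⟩, rfl⟩
    · rintro ⟨a, rfl⟩
      exact hf (by rw [hg', map_zero]; exact a.2)
  · obtain ⟨a, ha⟩ := hq (f x)
    exact ⟨⟨a, by rw [LinearMap.mem_ker, LinearMap.comp_apply, ha, hfg.apply_apply_eq_zero]⟩,
      hf (by rw [hg', ha])⟩

/-- a projective module with a finite free resolution is stably free -/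
theorem stablyFree {M : Type} [AddCommGroup M] [Module R M] (h : FFR R M) :
    Module.Projective R M → Module.IsStablyFree R M := by
  induction h with
  | free M h1 h2 => intro _; infer_instance
  | step K L M i p hi hip hp h1 h2 hK ih =>
    intro hM
    have hs := Module.projective_lifting_property p (LinearMap.id : M →ₗ[R] M) hp
    obtain ⟨e, he1, -⟩ := ((hip.split_tfae hi hp).out 0 2).1 hs
    have hKp : Module.Projective R K :=
      Module.Projective.of_split (e.symm.toLinearMap ∘ₗ LinearMap.inl R K M)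
        (LinearMap.fst R K M ∘ₗ e.toLinearMap) (LinearMap.ext fun x => by simp)
    have := ih hKp
    have := hK.finite
    obtain ⟨N, _, _, _, _, _⟩ := Module.IsStablyFree.exist_free_prod R K
    have : Module.Free R (M × K × N) := Module.Free.of_equiv
      ((e.prodCongr (LinearEquiv.refl R N)).trans
        (((LinearEquiv.prodComm R K M).prodCongr (LinearEquiv.refl R N)).trans
          (LinearEquiv.prodAssoc R M K N)))
    exact .of_free_prod R M (K × N)

/-- flat base change -/
theorem baseChange {A : Type} [CommRing A] (E : Type) [Ring E] [Algebra A E] [Module.Flat A E]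
    {M : Type} [AddCommGroup M] [Module A M] (h : FFR A M) : FFR E (E ⊗[A] M) := by
  induction h with
  | free M h1 h2 => exact .free _ inferInstance inferInstance
  | step K L M i p hi hip hp h1 h2 _ ih =>
    exact .step _ _ _ (i.baseChange E) (p.baseChange E)
      (Module.Flat.lTensor_preserves_injective_linearMap i hi) (lTensor_exact E hip hp)
      (LinearMap.lTensor_surjective E hp) inferInstance inferInstance ih

end FFR

/-- Noetherian rings whose finitely generated modules have finite free resolutions. -/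
structure Good (A : Type) [Ring A] : Prop where
  noeth : IsNoetherianRing A
  ffr : ∀ (M : Type) [AddCommGroup M] [Module A M], Module.Finite A M → FFR A M

theorem good_of_sub {A : Type} [Ring A] (h1 : IsNoetherianRing A)
    (h2 : ∀ (n : ℕ) (V : Submodule A (Fin n → A)), V.FG → FFR A V) : Good A := by
  refine ⟨h1, fun M _ _ hM => ?_⟩
  obtain ⟨n, p, hp⟩ := Module.Finite.exists_fin' A M
  exact .step _ _ M (LinearMap.ker p).subtype p (Submodule.injective_subtype _)
    (LinearMap.exact_subtype_ker_map p) hp inferInstance inferInstance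
    (h2 n _ (IsNoetherian.noetherian _))

theorem good_pid (A : Type) [CommRing A] [IsDomain A] [IsPrincipalIdealRing A] : Good A :=
  good_of_sub inferInstance fun n V hV =>
    .free _ (Module.Finite.iff_fg.2 hV) (by
      have := Module.Finite.iff_fg.2 hV
      infer_instance)

end Pool.Agent.Lib.TwoDim
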