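import Pool.Agent.Lib.TwoDim.Xi

/-! Projective modules over group rings of groups with an aspherical presentation. -/

noncomputable section

namespace Pool.Agent.Lib.TwoDim

open Function

/-- finitely generated projective modules are stably free -/
def PSF (R : Type) [Ring R] : Prop :=
  ∀ (P : Type) [AddCommGroup P] [Module R P] [Module.Finite R P] [Module.Projective R P],
    Module.IsStablyFree R P

section
variable {R S : Type} [Ring R] [Ring S] (e : R ≃+* S)

/-- the identity as a semilinear map -/
def idSl {M : Type} [AddCommGroup M] [Module R M] [Module S M]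
    (h : ∀ (r : R) (m : M), e r • m = r • m) : M →ₛₗ[(e : R →+* S)] M :=
  ⟨⟨id, fun _ _ => rfl⟩, fun r m => (h r m).symm⟩

theorem fin_tr {M : Type} [AddCommGroup M] [Module R M] [Module S M]
    (h : ∀ (r : R) (m : M), e r • m = r • m) [Module.Finite R M] : Module.Finite S M :=
  Module.Finite.of_surjective (idSl e h) surjective_id

theorem free_tr {M : Type} [AddCommGroup M] [Module R M] [Module S M]
    (h : ∀ (r : R) (m : M), e r • m = r • m) [Module.Free R M] : Module.Free S M :=
  Module.Free.of_basis ((Module.Free.chooseBasis R M).mapCoeffs e h)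

theorem FFR.tr {M : Type} [AddCommGroup M] [Module R M] (h : FFR R M) :
    ∀ [Module S M], (∀ (r : R) (m : M), e r • m = r • m) → FFR S M := by
  induction h with
  | free M h1 h2 => exact fun h => .free M (fin_tr e h) (free_tr e h)
  | step K L M i p hi hip hp h1 h2 _ ih =>
    intro _ h
    let _ : Module S K := Module.compHom K (e.symm : S →+* R)
    let _ : Module S L := Module.compHom L (e.symm : S →+* R)
    have hK : ∀ (r : R) (m : K), e r • m = r • m := fun r m =>
      congrArg (· • m) (e.symm_apply_apply r)
    have hL : ∀ (r : R) (m : L), e r • m = r • m := fun r m =>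
      congrArg (· • m) (e.symm_apply_apply r)
    exact .step K L M ⟨i.toAddHom, fun s m => i.map_smul (e.symm s) m⟩
      ⟨p.toAddHom, fun s m => (p.map_smul (e.symm s) m).trans
        ((h _ _).symm.trans (congrArg (· • p m) (e.apply_symm_apply s)))⟩
      hi hip hp (fin_tr e hL) (free_tr e hL) (ih hK)

include e in
theorem Good.tr (h : Good R) : Good S := by
  have := h.noeth
  refine ⟨isNoetherianRing_of_ringEquiv R e, fun M _ _ _ => ?_⟩
  let _ : Module R M := Module.compHom M (e : R →+* S)
  exact (h.ffr M (fin_tr e.symm fun s m => congrArg (· • m) (e.apply_symm_apply s))).tr e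
    fun _ _ => rfl

include e in
theorem PSF.tr (h : PSF R) : PSF S := by
  intro P _ _ _ hP
  let _ : Module R P := Module.compHom P (e : R →+* S)
  have h1 : ∀ (s : S) (m : P), e.symm s • m = s • m := fun s m =>
    congrArg (· • m) (e.apply_symm_apply s)
  have := fin_tr e.symm h1
  have : Module.Projective R P := by
    have := RingHomInvPair.of_ringEquiv e
    have := RingHomInvPair.of_ringEquiv_symm e
    exact Module.Projective.of_equiv (σ := (e.symm : S →+* R)) (σ' := (e : R →+* S))
      { idSl e.symm h1 with invFun := id, left_inv := fun _ => rfl, right_inv := fun _ => rfl }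
  have := h P
  obtain ⟨N, _, _, _, _, _⟩ := Module.IsStablyFree.exist_free_prod R P
  exact ((FFR.step N (P × N) P (LinearMap.inr R P N) (LinearMap.fst R P N) LinearMap.inr_injective
    Function.Exact.inr_fst LinearMap.fst_surjective inferInstance inferInstance
    (.free N inferInstance inferInstance)).tr e fun _ _ => rfl).stablyFree hP

end

theorem Good.laurent {A : Type} [CommRing A] (hA : Good A) :
    Good (MonoidAlgebra A (Multiplicative ℤ)) := by
  have := hA.noeth
  have : IsFreeGroup (Multiplicative ℤ) :=
    IsFreeGroup.ofMulEquiv (FreeGroup.mulEquivIntOfUnique (α := Unit))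
  exact good_of_sub (Algebra.FiniteType.isNoetherianRing A _) fun n V hV => tree hA V hV

theorem Good.pi {A : Type} [CommRing A] (hA : Good A) (n : ℕ) :
    Good (MonoidAlgebra A (Multiplicative (Fin n → ℤ))) := by
  induction n with
  | zero => exact hA.tr (MonoidAlgebra.uniqueRingEquiv _).symm
  | succ n ih =>
    let e : Multiplicative ℤ × Multiplicative (Fin n → ℤ) ≃* Multiplicative (Fin (n + 1) → ℤ) :=
      (MulEquiv.prodMultiplicative ℤ (Fin n → ℤ)).symm.trans
        (AddEquiv.toMultiplicative (Fin.consLinearEquiv ℤ fun _ => ℤ).toAddEquiv)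
    exact (ih.laurent.tr (MonoidAlgebra.curryRingEquiv (R := A) (M := Multiplicative ℤ)
      (N := Multiplicative (Fin n → ℤ))).symm).tr (MonoidAlgebra.mapDomainRingEquiv A e)

theorem Aspherical.psf {G : Type} [Group G] (h : Aspherical G) {A : Type} [CommRing A]
    (hA : Good A) : PSF (MonoidAlgebra A G) := by
  obtain ⟨F, R, _, _, p, r, σ, h⟩ := h
  intro P _ _ _ hP
  obtain ⟨n, f, hf⟩ := Module.Finite.exists_fin' (MonoidAlgebra A G) P
  have := Module.finitePresentation_of_projective (MonoidAlgebra A G) P
  have := Module.Finite.iff_fg.2 (Module.FinitePresentation.fg_ker f hf)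
  have : Module.Projective (MonoidAlgebra A G) (LinearMap.ker f) := by
    obtain ⟨s, hs⟩ := (((LinearMap.exact_subtype_ker_map f).split_tfae
      (Submodule.injective_subtype _) hf).out 0 1).1
      (Module.projective_lifting_property f LinearMap.id hf)
    exact Module.Projective.of_split _ s hs
  have := Module.finitePresentation_of_projective (MonoidAlgebra A G) (LinearMap.ker f)
  exact (FFR.step _ _ P (LinearMap.ker f).subtype f (Submodule.injective_subtype _)
    (LinearMap.exact_subtype_ker_map f) hf inferInstance inferInstance (h.ffr hA _)).stablyFree hP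

theorem Aspherical.psf_pi {G : Type} [Group G] (h : Aspherical G) {A : Type} [CommRing A]
    (hA : Good A) (n : ℕ) : PSF (MonoidAlgebra A (G × Multiplicative (Fin n → ℤ))) :=
  (h.psf (hA.pi n)).tr MonoidAlgebra.curryRingEquiv.symm

end Pool.Agent.Lib.TwoDim
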