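import Pool.Agent.Lib.TwoDim.Cx
import Pool.Agent.Lib.TwoDim.Main
import Pool.Agent.Lib.NIL.B_SF

/-! Comparison of three forms of the vanishing of the reduced projective class group. -/

noncomputable section

namespace Pool.Agent.Lib.TwoDim

open Function Finsupp NIL

variable {R : Type} [Ring R]

theorem mem_M_iff {V : Raw R Unit} {m : ℤ} {v : V.ι →₀ R} :
    v ∈ (tcat R Unit).M V m () ↔ v ∈ supported R R {i | V.deg i = m} :=
  ⟨fun h i hi => (sub_eq_zero.1 ((mem_bcat.1 (h i)).2 (mem_support_iff.1 hi))).symm,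
    fun h i => mem_bcat.2 ⟨trivial, fun hi => sub_eq_zero.2 (h (mem_support_iff.2 hi)).symm⟩⟩

theorem psf_of_Q (hQ : (tcat R Unit).Q) : PSF R := by
  intro P _ _ _ hP
  have hC := tcat_good R Unit
  have hD : ∀ (V : Raw R Unit) v, (tcat R Unit).D V v = V.δ v := fun V v => bcat_D _ V v
  obtain ⟨n, f₀, g₀, -, -, hfg⟩ := Module.Finite.exists_comp_eq_id_of_projective R P
  let f' := f₀ ∘ₗ (linearEquivFunOnFinite R R (Fin n)).toLinearMap
  let g' := (linearEquivFunOnFinite R R (Fin n)).symm.toLinearMap ∘ₗ g₀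
  have e0 : ∀ y, f' (g' y) = y := fun y => by
    simpa [f', g'] using LinearMap.congr_fun hfg y
  let a : ℕ → Module.End R (Fin n →₀ R) := fun k => Nat.rec (1 - g' ∘ₗ f') (fun _ x => 1 - x) k
  have a0 : ∀ v, a 0 v = v - g' (f' v) := fun _ => rfl
  have a1 : ∀ k v, a (k + 1) v = v - a k v := fun _ _ => rfl
  have a2 : ∀ k v, a k (a k v) = a k v := fun k => by
    induction k with
    | zero => intro v; simp [a0, e0]
    | succ k ih => intro v; simp [a1, ih]
  let j : ℕ → (Fin n →₀ R) →ₗ[R] (ℕ × Fin n →₀ R) := fun k => inc (Prod.mk k)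
  have ext : ∀ {Y : Type} [AddCommGroup Y] [Module R Y] {φ ψ : (ℕ × Fin n →₀ R) →ₗ[R] Y},
      (∀ k v, φ (j k v) = ψ (j k v)) → φ = ψ := fun h =>
    lhom_ext' fun q => LinearMap.ext_ring (by simpa [j] using h q.1 (single q.2 1))
  have mk : ∀ {Y : Type} [AddCommGroup Y] [Module R Y] (φ : ℕ → (Fin n →₀ R) →ₗ[R] Y),
      ∃ ψ : (ℕ × Fin n →₀ R) →ₗ[R] Y, ∀ k v, ψ (j k v) = φ k v := fun φ =>
    ⟨linearCombination R fun q => φ q.1 (single q.2 1), fun k => LinearMap.congr_fun
      (lhom_ext' fun i => LinearMap.ext_ring (by simp [j]) :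
        (linearCombination R fun q : ℕ × Fin n => φ q.1 (single q.2 1)) ∘ₗ j k = φ k)⟩
  obtain ⟨δ, hδ⟩ := mk fun k => Nat.rec 0 (fun k _ => j k ∘ₗ a k) k
  have δ0 : ∀ v, δ (j 0 v) = 0 := hδ 0
  have δ1 : ∀ k v, δ (j (k + 1) v) = j k (a k v) := fun k => hδ (k + 1)
  obtain ⟨i, hi⟩ := mk fun k => Nat.rec (g' ∘ₗ f') (fun _ _ => 0) k
  have i0 : ∀ v, i (j 0 v) = g' (f' v) := hi 0
  have i1 : ∀ k v, i (j (k + 1) v) = 0 := fun k => hi (k + 1)
  obtain ⟨s, hs⟩ := mk fun k => -j (k + 1)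
  let M : Raw R Unit := ⟨ℕ × Fin n, fun q => -q.1, fun _ => (), δ⟩
  let W := SF.fr R 0 n
  have jm : ∀ (k : ℕ) v, j k v ∈ (tcat R Unit).M M (-k) () := fun k v => mem_M_iff.2 fun q hq => by
    classical
    obtain ⟨x, -, rfl⟩ := Finset.mem_image.1 (mapDomain_support hq)
    rfl
  have wm : ∀ v, v ∈ (tcat R Unit).M W 0 () := fun v => mem_M_iff.2 fun _ _ => rfl
  have js : ∀ q : ℕ × Fin n, single q (1 : R) = j q.1 (single q.2 1) := fun q => by simp [j]
  have oM : (tcat R Unit).Obj M := ⟨fun ⟨k, x⟩ => by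
      rw [js]
      cases k with
      | zero => exact δ0 _ ▸ zero_mem _
      | succ k => simpa [M, δ1] using jm k _, fun v => by
    rw [hD, hD]
    refine LinearMap.congr_fun (ext (φ := δ ∘ₗ δ) (ψ := 0) fun k v => ?_) v
    rcases k with _ | _ | k <;> simp [δ0, δ1, a1, a2]⟩
  have oW : (tcat R Unit).Obj W := SF.fr_obj 0 n
  have ci : (tcat R Unit).Ch M W i := ⟨fun ⟨k, x⟩ => by
      rw [js]
      cases k with
      | zero => exact wm _
      | succ k => exact i1 k _ ▸ zero_mem _, fun v => by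
    rw [hD, hD]
    refine LinearMap.congr_fun (ext (φ := 0) (ψ := i ∘ₗ δ) fun k v => ?_) v
    rcases k with _ | _ | k <;> simp [δ0, δ1, i0, i1, a0, e0]⟩
  have cr : (tcat R Unit).Ch W M (j 0) := ⟨fun x => jm 0 _, fun v => by
    rw [hD, hD]
    exact (δ0 v).trans (map_zero _).symm⟩
  have h1 : (tcat R Unit).Ht M M (j 0 ∘ₗ i) LinearMap.id := ⟨s, fun ⟨k, x⟩ => by
      rw [js, hs]
      simpa [M, add_comm] using jm (k + 1) _, fun v => by
    rw [hD, hD]
    refine LinearMap.congr_fun (ext (φ := j 0 ∘ₗ i - LinearMap.id) (ψ := δ ∘ₗ s + s ∘ₗ δ)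
      fun k v => ?_) v
    rcases k with _ | k
    · simp [δ0, δ1, i0, hs, a0]
    · simp only [δ1, i1, hs, a1, LinearMap.sub_apply, LinearMap.add_apply, LinearMap.comp_apply,
        LinearMap.id_apply, LinearMap.neg_apply, map_neg, map_sub, map_zero]
      abel⟩
  obtain ⟨V, oV, ⟨fV, -⟩, f, cf, g, cg, h2, h3⟩ := hQ M oM
    ⟨W, oW, ⟨inferInstance, ⟨fun x => ⟨x, fun _ h => (h rfl).elim⟩⟩⟩, i, j 0, ci, cr, h1⟩
  obtain ⟨t, ht, ht'⟩ := (hC.ht_comp_right (hC.ht_comp_left cg h1) cf).trans h3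
  obtain ⟨t', hu, hu'⟩ := hC.ht_comp_right (hC.ht_comp_left cr h2) ci
  have k1 : ∀ z, V.δ z = 0 → i (g z) = 0 → V.δ (-t z) = z := fun z e1 e2 => by
    have := ht' z
    simp only [hD, LinearMap.comp_apply, e1, e2, map_zero, LinearMap.id_apply, zero_sub,
      add_zero] at this
    rw [map_neg, ← this, neg_neg]
  have k2 : ∀ y, i (g (f (j 0 y))) = g' (f' y) := fun y => by
    have := hu' y
    rw [SF.zero_conc (V := W) (W := W) (a := 0) (fun _ => rfl) (fun _ => rfl) hu (by norm_num), hD,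
      sub_eq_iff_eq_add] at this
    simpa [i0] using this
  have k3 : ∀ w, g' (f' (i w)) = i w := LinearMap.congr_fun
    (ext (φ := g' ∘ₗ f' ∘ₗ i) (ψ := i) fun k v => by rcases k with _ | k <;> simp [i0, i1, e0])
  obtain ⟨N, hN⟩ := (Set.finite_range fun x => |V.deg x|).bddAbove
  have hN' : ∀ x, |V.deg x| ≤ N := fun x => hN ⟨x, rfl⟩
  have hb : ∀ m : ℤ, (∀ x, V.deg x ≠ m) → supported R R {x | V.deg x = m} = ⊥ := fun m h => by
    rw [Set.eq_empty_of_forall_notMem (s := {x | V.deg x = m}) h, supported_empty]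
  refine (ffr_of_complex (fun m => supported R R {x | V.deg x = m})
    (fun m => Module.Finite.equiv (supportedEquivFinsupp _).symm)
    (fun m => Module.Free.of_equiv (supportedEquivFinsupp _).symm) (N + 1)
    (fun m hm => hb m fun x e => by have := abs_le.1 (hN' x); omega)
    (fun m hm => hb m fun x e => by have := abs_le.1 (hN' x); omega) V.δ
    (fun m x hx => mem_M_iff.1 (hC.map_mem oV.1 (mem_M_iff.2 hx)))
    (fun x => by simpa only [hD] using oV.2 x) (fun m hm z hz e => ⟨-t z, ?_, k1 z e ?_⟩)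
    (f' ∘ₗ i ∘ₗ g) (fun x => ?_) (fun y => ⟨f (j 0 (g' y)), ?_, ?_, ?_⟩)
    fun z hz e1 e2 => ⟨-t z, ?_, k1 z e1 ?_⟩).stablyFree hP
  · simpa using mem_M_iff.1 (hC.map_mem ht (mem_M_iff.2 hz))
  · have := mem_M_iff.1 (hC.map_mem (hC.ch_comp cg ci).1 (mem_M_iff.2 hz))
    exact Finsupp.ext fun x => by_contra fun h => hm (by
      simpa using (this (mem_support_iff.2 h)).symm)
  · have := (hC.ch_comp cg ci).2 x
    rw [hD, hD] at this
    exact (congrArg f' this.symm).trans (map_zero _)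
  · simpa using mem_M_iff.1 (hC.map_mem cf.1 (jm 0 _))
  · have := cf.2 (j 0 (g' y))
    rw [hD, hD] at this
    exact this.trans ((congrArg f (δ0 _)).trans (map_zero _))
  · simp [k2, e0]
  · simpa using mem_M_iff.1 (hC.map_mem ht (mem_M_iff.2 hz))
  · exact (k3 _).symm.trans ((congrArg g' e2).trans (map_zero _))

theorem sfree_of_psf (h : PSF R) : SFree R := by
  intro n e he
  let f : (Fin n → R) →ₗ[R] (Fin n → R) := Matrix.toLinearMapRight' e
  have hf : ∀ v, f (f v) = f v := fun v => by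
    rw [← Matrix.toLinearMapRight'_mul_apply, he]
  have h1 : ∀ w : LinearMap.range f, f.rangeRestrict w.1 = w := fun ⟨_, v, rfl⟩ =>
    Subtype.ext (hf v)
  have : Module.Projective R (LinearMap.range f) :=
    Module.Projective.of_split (LinearMap.range f).subtype f.rangeRestrict (LinearMap.ext h1)
  have := h (LinearMap.range f)
  obtain ⟨N, _, _, _, _, _⟩ := Module.IsStablyFree.exist_free_prod R (LinearMap.range f)
  let b := (Module.Free.chooseBasis R N).reindex (Fintype.equivFin _)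
  let c := (Module.Free.chooseBasis R (LinearMap.range f × N)).reindex (Fintype.equivFin _)
  let s := LinearEquiv.sumArrowLequivProdArrow (Fin n)
    (Fin (Fintype.card (Module.Free.ChooseBasisIndex R N))) R R
  let x := c.equivFun.toLinearMap ∘ₗ (f.rangeRestrict.prodMap b.equivFun.symm.toLinearMap) ∘ₗ
    s.toLinearMap
  let y := s.symm.toLinearMap ∘ₗ ((LinearMap.range f).subtype.prodMap b.equivFun.toLinearMap) ∘ₗ
    c.equivFun.symm.toLinearMap
  refine ⟨_, _, LinearMap.toMatrixRight' x, LinearMap.toMatrixRight' y, ?_, ?_⟩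
  · rw [← LinearMap.toMatrixRight'_comp, ← LinearEquiv.eq_symm_apply]
    refine LinearMap.ext fun v => s.injective ?_
    change _ = s (Matrix.vecMul v _)
    rw [Matrix.vecMul_fromBlocks, Matrix.vecMul_zero, Matrix.vecMul_zero, Matrix.vecMul_one,
      add_zero, zero_add]
    simp only [x, y, LinearMap.comp_apply, LinearEquiv.coe_coe, LinearEquiv.apply_symm_apply,
      LinearEquiv.symm_apply_apply, LinearMap.prodMap_apply]
    rfl
  · rw [← LinearMap.toMatrixRight'_comp, ← LinearMap.toMatrixRight'_id]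
    refine congrArg _ (LinearMap.ext fun v => ?_)
    simp only [x, y, LinearMap.comp_apply, LinearEquiv.coe_coe, LinearEquiv.apply_symm_apply,
      LinearEquiv.symm_apply_apply, LinearMap.prodMap_apply, Submodule.subtype_apply, h1,
      LinearMap.id_apply, Prod.mk.eta]

end Pool.Agent.Lib.TwoDim
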