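import Pool.Agent.Lib.TwoDim.Xi

/-! Subgroups of groups with an aspherical presentation have aspherical presentations. -/

noncomputable section

namespace Pool.Agent.Lib.TwoDim

open Function

theorem Aspherical.of_injective {G H : Type} [Group G] [Group H] (h : Aspherical G) (f : H →* G)
    (hf : Injective f) : Aspherical H := by
  obtain ⟨F, R, _, _, p, r, σ, h⟩ := h
  let F' := f.range.comap p
  let e := MonoidHom.ofInjective hf
  let p' : F' →* H := e.symm.toMonoidHom.comp ((p.comp F'.subtype).codRestrict f.range fun x => x.2)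
  have hp : ∀ x, f (p' x) = p x.1 := fun x => congrArg Subtype.val (e.apply_symm_apply ⟨p x.1, x.2⟩)
  have hk : ∀ x : F', x ∈ p'.ker ↔ x.1 ∈ p.ker := fun x => by
    rw [MonoidHom.mem_ker, MonoidHom.mem_ker, ← hp, map_eq_one_iff f hf]
  have hm : ∀ x : p.ker, x.1 ∈ F' := fun x => ⟨1, (map_one f).trans x.2.symm⟩
  let T := Quotient (QuotientGroup.rightRel f.range)
  let r' : T × R → p'.ker := fun q =>
    ⟨⟨_, hm (MulAut.conjNormal (σ q.1.out) (r q.2))⟩,
      (hk _).2 (MulAut.conjNormal (σ q.1.out) (r q.2)).2⟩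
  let ι : p'.ker →* p.ker :=
    (F'.subtype.comp p'.ker.subtype).codRestrict p.ker fun x => (hk _).1 x.2
  refine ⟨F', T × R, inferInstance, inferInstance, p', r', fun g => ⟨σ (f g), g, (h.sec _).symm⟩,
    fun g => hf ((hp _).trans (h.sec _)), le_antisymm (Subgroup.normalClosure_le_normal ?_) ?_, ?_⟩
  · rintro _ ⟨q, rfl⟩
    exact (r' q).2
  · intro x hx
    have h1 : p.ker ≤ (Subgroup.normalClosure (Set.range fun q => (r' q : F'))).map F'.subtype := by
      refine h.gen.ge.trans ((Subgroup.closure_le _).2 fun y hy => ?_)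
      obtain ⟨_, ⟨i, rfl⟩, hy⟩ := Group.mem_conjugatesOfSet_iff.1 hy
      obtain ⟨c, rfl⟩ := isConj_iff.1 hy
      let t : T := Quotient.mk'' (p c)
      have hu : c * (σ t.out)⁻¹ ∈ F' := by
        change p _ ∈ f.range
        rw [map_mul, map_inv, h.sec]
        exact QuotientGroup.rightRel_apply.1 (Quotient.mk_out (s := QuotientGroup.rightRel _) (p c))
      exact ⟨_, Subgroup.normalClosure_normal.conj_mem (r' (t, i) : F')
        (Subgroup.subset_normalClosure (Set.mem_range_self (t, i))) ⟨_, hu⟩,
        by simp [r', mul_assoc]⟩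
    obtain ⟨y, hy, e⟩ := h1 ((hk x).1 hx)
    exact Subtype.ext e ▸ hy
  · refine LinearIndependent.of_comp
      (MonoidHom.toAdditive (Abelianization.map ι)).toIntLinearMap ?_
    have key := h.ind.comp (fun q : H × T × R => (f q.1 * q.2.1.out, q.2.2)) fun q q' e => by
      obtain ⟨e1, e2⟩ := Prod.ext_iff.1 e
      have e3 : q.2.1 = q'.2.1 := Quotient.out_equiv_out.1 (QuotientGroup.rightRel_apply.2
        ⟨q'.1⁻¹ * q.1, by
          rw [map_mul, map_inv, eq_mul_inv_iff_mul_eq, mul_assoc, show f q.1 * _ = _ from e1,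
            inv_mul_cancel_left]⟩)
      dsimp only at e1
      rw [e3] at e1
      exact Prod.ext (hf (mul_right_cancel e1)) (Prod.ext e3 e2)
    refine (congrArg (fun v => LinearIndependent ℤ v) (funext fun q : H × T × R => ?_)).mp key
    refine (relClass_congr (f' := σ (f q.1) * σ q.2.1.out) (by simp [h.sec]) _).trans ?_
    exact congrArg (fun x => Additive.ofMul (Abelianization.of x))
      (Subtype.ext (by simp [ι, r', mul_assoc]))

end Pool.Agent.Lib.TwoDim
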