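import Pool.Agent.Lib.TwoDim.Cd
import Pool.Agent.Lib.TwoDim.Cls
import Pool.Agent.Lib.TwoDim.QP
import Pool.Agent.Lib.TwoDim.Sub
import Pool.Agent.Lib.NIL.FinalW

/-! Closure under unions and actions on trees. -/

noncomputable section

namespace Pool.Agent.Lib.TwoDim

open Function NIL TensorProduct CategoryTheory

theorem Aspherical.cd {G : Type} [Group G] (h : Aspherical G) : CdLE G 2 := by
  obtain ⟨F, R, _, _, p, r, σ, h⟩ := h
  obtain ⟨X, d2, d1, h1, h2, h3⟩ := h.res
  let ρ := Representation.trivial ℤ G ℤ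
  let ε : MonoidAlgebra ℤ G →ₗ[MonoidAlgebra ℤ G] ρ.asModule :=
    LinearMap.toSpanSingleton _ _ (ρ.asModuleEquiv.symm 1)
  have e1 : ∀ g, ε (Tr.o ℤ g) = ρ.asModuleEquiv.symm 1 := fun g =>
    (ρ.asModuleEquiv_symm_map_rho g 1).symm
  have e2 : ∀ (a : ℤ), ρ.asModuleEquiv (ε (a • 1)) = a := fun a => by
    rw [map_zsmul, map_zsmul, MonoidAlgebra.one_def, e1, LinearEquiv.apply_symm_apply, smul_eq_mul,
      mul_one]
  have e3 : ∀ s, s - ρ.asModuleEquiv (ε s) • 1 ∈ LinearMap.range d1 := fun s => by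
    induction s using Xi.alg_ind with
    | h0 g =>
      rw [e1, LinearEquiv.apply_symm_apply, one_smul, h3]
      exact Submodule.subset_span ⟨g, rfl⟩
    | h1 x y hx hy =>
      rw [map_add, map_add, add_smul, add_sub_add_comm]
      exact add_mem hx hy
    | h2 a x hx =>
      rw [map_zsmul, map_zsmul, smul_assoc, ← smul_sub]
      exact zsmul_mem hx a
  have k1 : Pd (MonoidAlgebra ℤ G) (LinearMap.range d1) 1 :=
    (pd_succ d2 d1.rangeRestrict h1 (fun y => Iff.trans ⟨fun h => congrArg Subtype.val h,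
      fun h => Subtype.ext h⟩ (h2 y)) d1.surjective_rangeRestrict inferInstance 0).2
      (pd_zero.2 inferInstance)
  have k2 : Pd (MonoidAlgebra ℤ G) ρ.asModule 2 :=
    (pd_succ (LinearMap.range d1).subtype ε (Submodule.injective_subtype _) (fun s =>
      ⟨fun hs => ⟨⟨s, by simpa [hs] using e3 s⟩, rfl⟩, fun ⟨y, hy⟩ => hy ▸
        (h3.trans_le (Submodule.span_le.2 (by
          rintro _ ⟨g, rfl⟩
          change ε _ = 0
          rw [map_sub, MonoidAlgebra.one_def, e1, e1, sub_self])) : _ ≤ LinearMap.ker ε) y.2⟩)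
      (fun z => ⟨_, ρ.asModuleEquiv.injective (e2 _)⟩) inferInstance 1).2 k1
  exact @hasProjectiveDimensionLT_of_iso _ _ _ _ _ (Rep.unitIso (Rep.trivial ℤ G ℤ)).symm 3
    (pd_map_equivalence (Rep.ofModuleMonoidAlgebra (k := ℤ) (G := G)) 2 _ k2)

/-- extension of scalars for group rings -/
def tens (A G : Type) [CommRing A] [Group G] :
    A ⊗[ℤ] MonoidAlgebra ℤ G ≃+* MonoidAlgebra A G :=
  RingEquiv.ofRingHom
    (Algebra.TensorProduct.lift
      (MonoidAlgebra.singleOneRingHom : A →+* MonoidAlgebra A G).toIntAlgHom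
      (MonoidAlgebra.mapRingHom G (Int.castRingHom A)).toIntAlgHom fun a x =>
        MonoidAlgebra.single_one_comm a
          (MonoidAlgebra.mapRingHom G (Int.castRingHom A) x)).toRingHom
    (MonoidAlgebra.liftNCRingHom Algebra.TensorProduct.includeLeftRingHom
      ((Algebra.TensorProduct.includeRight (R := ℤ) (A := A)).toMonoidHom.comp
        (MonoidAlgebra.of ℤ G)) fun a g => by
        simp [Commute, SemiconjBy])
    (MonoidAlgebra.ringHom_ext (fun a => by simp) fun g => by simp)
    (RingHom.ext fun z => by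
      induction z using TensorProduct.induction_on with
      | zero => simp
      | add x y hx hy => rw [map_add, map_add, hx, hy]
      | tmul a x =>
        induction x using MonoidAlgebra.induction_linear with
        | zero => simp
        | add x y hx hy => rw [tmul_add, map_add, map_add, hx, hy]
        | single g c =>
          rw [← mul_one c, ← MonoidAlgebra.smul_single', tmul_smul, map_zsmul, map_zsmul]
          simp)

theorem qg_iff {G A : Type} [Group G] [CommRing A] : QG G A ↔ PSF (MonoidAlgebra A G) := by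
  rw [QG, QB.tcat_bc']
  exact ⟨fun h => (psf_of_Q h).tr (tens A G),
    fun h => st_sf _ (sfree_of_psf (h.tr (tens A G).symm))⟩

theorem psf_of_local {G A : Type} [Group G] [CommRing A]
    (h : ∀ s : Finset G, ∃ K : Subgroup G, (∀ g ∈ s, g ∈ K) ∧ PSF (MonoidAlgebra A K)) :
    PSF (MonoidAlgebra A G) := by
  classical
  refine fun P _ _ _ _ => QB.stably_free _ (fun n e he => ?_) P
  obtain ⟨K, h1, h2⟩ := h (Finset.univ.biUnion fun q : Fin n × Fin n => (e q.1 q.2).coeff.support)
  let ι := MonoidAlgebra.mapDomainRingHom A K.subtype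
  have inj : Injective ι := MonoidAlgebra.mapDomain_injective K.subtype_injective
  have sur : ∀ i j, ∃ y, ι y = e i j := fun i j =>
    ⟨_, MonoidAlgebra.mapDomain_comapDomain (fun g hg => ⟨⟨g, h1 g (Finset.mem_biUnion.2
      ⟨(i, j), Finset.mem_univ _, hg⟩)⟩, rfl⟩) K.subtype_injective⟩
  choose B hB using sur
  have e1 : (Matrix.of B).map ι = e := Matrix.ext hB
  obtain ⟨k, l, h3⟩ := sfree_of_psf h2 n (Matrix.of B)
    (Matrix.map_injective inj (by simp only [Matrix.map_mul, e1, he]))
  have h4 := h3.map ι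
  rw [Matrix.fromBlocks_map, e1, Matrix.map_one _ (map_zero _) (map_one _),
    Matrix.map_one _ (map_zero _) (map_one _), Matrix.map_zero _ (map_zero _),
    Matrix.map_zero _ (map_zero _)] at h4
  exact ⟨k, l, h4⟩

/-- the invariant of the induction -/
def Flat0 (G : Type) [Group G] : Prop :=
  ∀ (H : Type) [Group H] (f : H →* G), Injective f → ∀ (n : ℕ) (A : Type) [CommRing A]
    [IsDomain A] [IsPrincipalIdealRing A],
    PSF (MonoidAlgebra A (H × Multiplicative (Fin n → ℤ)))

open WT in
theorem Built.flat {G : Type} [Group G] (h : Built G) : NilCl G ∧ Flat0 G := by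
  induction h with
  | seed G h =>
    exact ⟨.fin G 2 h.cd, fun H _ f hf n A _ _ _ => (h.of_injective f hf).psf_pi (good_pid A) n⟩
  | union G K h _ ih =>
    classical
    refine ⟨.union G K h fun s => (ih s).1, fun H _ f hf n A _ _ _ => psf_of_local fun s => ?_⟩
    let L := (K (s.image fun g => f g.1)).comap f
    refine ⟨L.prod ⊤, fun g hg => ⟨h _ _ (Finset.mem_image_of_mem _ hg), trivial⟩, ?_⟩
    obtain ⟨e⟩ := exists_equiv L (L.prod (⊤ : Subgroup (Multiplicative (Fin n → ℤ))))
      fun g => ⟨fun a => a.1, fun a => ⟨a, trivial⟩⟩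
    obtain ⟨ι, hι⟩ := exists_inj hf L _ fun _ a => a
    exact ((ih _).2 _ ι hι n A).tr (MonoidAlgebra.mapDomainRingEquiv A e)
  | tree G V T h _ ih =>
    refine ⟨.tree G V T h.isTree h.adj h.noInversion fun v => (ih v).1,
      fun H _ f hf n A _ _ _ => ?_⟩
    let B := Multiplicative (Fin n → ℤ)
    let _ : MulAction (H × B) V := MulAction.compHom V (f.comp (MonoidHom.fst H B))
    obtain ⟨X, _, F, hF⟩ := exists_forest_of_tree (H := H × B) T h.isTree (fun g => h.adj (f g.1))
      fun g => h.noInversion (f g.1)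
    have key : ∀ (x : X) (S : Subgroup (H × B)), S = MulAction.stabilizer (H × B) x →
        (∀ (A : Type) [CommRing A] [IsDomain A] [IsPrincipalIdealRing A], QG S A) ∧ NilCl S := by
      intro x S hS
      obtain ⟨K, v, hK, hv⟩ : ∃ (K : Subgroup H) (v : V), (∀ g, g ∈ S ↔ g.1 ∈ K) ∧
          ∀ k ∈ K, f k ∈ MulAction.stabilizer G v := by
        rcases hF x with ⟨-, v, e⟩ | ⟨-, u, v, -, e⟩
        · exact ⟨(MulAction.stabilizer G v).comap f, v, fun g => by rw [hS, e]; rfl, fun _ a => a⟩
        · exact ⟨(MulAction.stabilizer G u ⊓ MulAction.stabilizer G v).comap f, v,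
            fun g => by rw [hS, e]; rfl, fun _ a => a.2⟩
      obtain ⟨e⟩ := exists_equiv K S hK
      obtain ⟨ι, hι⟩ := exists_inj hf K _ hv
      exact ⟨fun A _ _ _ => qg_iff.2 (((ih v).2 K ι hι n A).tr
        (MonoidAlgebra.mapDomainRingEquiv A e)),
        (((ih v).1.of_injective _ ι hι).prod_pi n).of_mulEquiv e⟩
    have fl : ∀ o : F.Fl, MulAction.stabilizer (H × B) o = MulAction.stabilizer (H × B) o.1.1 := by
      intro o
      ext g
      exact ⟨fun a => congrArg (fun z : F.Fl => z.1.1) a, fun a => Prod.ext (Subtype.ext a) rfl⟩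
    exact qg_iff.1 (tk0_holds (H × B) X F A (st_orbq _ _ A fun x => (key x _ rfl).1 A)
      (st_orbq _ _ _ fun o => (key _ _ (fl o)).1 (Ax A))
      (ind_holds _ _ (fun o => (key _ _ (fl o)).2) (Ax A)))

theorem Built.psf {G : Type} [Group G] (h : Built G) (n : ℕ) :
    PSF (MonoidAlgebra ℤ (G × Multiplicative (Fin n → ℤ))) :=
  h.flat.2 G (MonoidHom.id G) (fun _ _ e => e) n ℤ

end Pool.Agent.Lib.TwoDim
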