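import Pool.Agent.Lib.TwoDim.FR

/-! Reduction of modules along a surjective ring map whose kernel is projective on the right. -/

namespace Pool.Agent.Lib.TwoDim

open Function TensorProduct

variable {E S : Type} [Ring E] [Ring S] {π : E →+* S}

/-- right linear on the kernel -/
def RL (π : E →+* S) (φ : E →+ E) : Prop := ∀ j e, π j = 0 → φ (j * e) = φ j * e

theorem RL.exists_lift {φ : E →+ E} (hφ : RL π φ) (L : Type) [AddCommGroup L] [Module E L]
    [Module.Free E L] : ∃ Φ : L →+ L, ∀ j y, π j = 0 → Φ (j • y) = φ j • y := by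
  let b := Module.Free.chooseBasis E L
  let T : (Module.Free.ChooseBasisIndex E L →₀ E) →+ L :=
    Finsupp.liftAddHom fun k => ((LinearMap.toSpanSingleton E L (b k)).toAddMonoidHom).comp φ
  have hT : ∀ k e, T (Finsupp.single k e) = φ e • b k := fun k e => by simp [T]
  refine ⟨T.comp b.repr.toLinearMap.toAddMonoidHom, fun j y hj => ?_⟩
  obtain ⟨y, rfl⟩ := b.repr.symm.surjective y
  change T (b.repr (j • b.repr.symm y)) = _
  rw [map_smul, LinearEquiv.apply_symm_apply]
  induction y using Finsupp.induction_linear with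
  | zero => simp
  | add x y hx hy => rw [smul_add, map_add, hx, hy, map_add, smul_add]
  | single k e =>
    rw [Finsupp.smul_single, hT, smul_eq_mul, hφ j e hj, Module.Basis.repr_symm_single, mul_smul]

/-- a dual basis of the kernel as a right module -/
structure Dual (π : E →+* S) where
  I : Type
  ν : I → E
  η : E →+ (I →₀ E)
  hν : ∀ i, π (ν i) = 0
  mul : ∀ j e i, π j = 0 → η (j * e) i = η j i * e
  sum : ∀ j, π j = 0 → ((η j).sum fun i z => ν i * z) = j

theorem Dual.flat (D : Dual π) {L L₂ : Type} [AddCommGroup L] [Module E L] [Module.Free E L]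
    [AddCommGroup L₂] [Module E L₂] [Module.Free E L₂] (f : L →ₗ[E] L₂) {x : L}
    (hx : x ∈ RingHom.ker π • (⊤ : Submodule E L)) (h0 : f x = 0) :
    x ∈ RingHom.ker π • LinearMap.ker f := by
  have hr : ∀ i, RL π ((Finsupp.applyAddHom i).comp D.η) := fun i j e hj => D.mul j e i hj
  choose Φ hΦ using fun i => (hr i).exists_lift L
  choose Ψ hΨ using fun i => (hr i).exists_lift L₂
  have key : ∃ z : D.I →₀ L, (∀ i, f (z i) = Ψ i (f x)) ∧ (z.sum fun i y => D.ν i • y) = x := by
    clear h0
    refine Submodule.smul_induction_on hx (fun j hj y _ => ?_) ?_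
    · refine ⟨(D.η j).mapRange (· • y) (zero_smul _ _), fun i => ?_, ?_⟩
      · rw [Finsupp.mapRange_apply, map_smul, map_smul, hΨ i j _ hj]
        rfl
      · rw [Finsupp.sum_mapRange_index fun _ => smul_zero _]
        conv_rhs => rw [← D.sum j hj]
        simp only [Finsupp.sum, Finset.sum_smul, mul_smul]
    · rintro x y ⟨z, h1, h2⟩ ⟨w, h3, h4⟩
      refine ⟨z + w, fun i => by rw [Finsupp.add_apply, map_add, h1, h3, map_add, map_add], ?_⟩
      rw [Finsupp.sum_add_index' (fun _ => smul_zero _) fun _ _ _ => smul_add _ _ _, h2, h4]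
  obtain ⟨z, h1, h2⟩ := key
  rw [← h2]
  exact Submodule.sum_mem _ fun i _ => Submodule.smul_mem_smul (D.hν i)
    (by rw [LinearMap.mem_ker, h1, h0, map_zero])

section
variable {M M' N : Type} [AddCommGroup M] [Module E M] [AddCommGroup M'] [Module S M']
  [AddCommGroup N] [Module S N]

theorem red_zero (g : M →ₛₗ[π] N) {V : Submodule E M} {x : M} (hx : x ∈ RingHom.ker π • V) :
    g x = 0 :=
  Submodule.smul_induction_on hx
    (fun j hj y _ => by rw [map_smulₛₗ, show π j = 0 from hj, zero_smul])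
    fun x y hx hy => by rw [map_add, hx, hy, add_zero]

/-- `M'` is the reduction of `M` -/
structure IsRed (θ : M →ₛₗ[π] M') : Prop where
  surj : Surjective θ
  ker : ∀ x, θ x = 0 → x ∈ RingHom.ker π • (⊤ : Submodule E M)

variable [RingHomSurjective π]

theorem IsRed.lift {θ : M →ₛₗ[π] M'} (h : IsRed θ) (g : M →ₛₗ[π] N) :
    ∃ g' : M' →ₗ[S] N, ∀ x, g' (θ x) = g x := by
  have key : ∀ x, g (surjInv h.surj (θ x)) = g x := fun x => by
    rw [← sub_eq_zero, ← map_sub]
    exact red_zero g (h.ker _ (by rw [map_sub, surjInv_eq h.surj, sub_self]))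
  refine ⟨⟨⟨fun y => g (surjInv h.surj y), fun a b => ?_⟩, fun s a => ?_⟩, key⟩
  · obtain ⟨a, rfl⟩ := h.surj a
    obtain ⟨b, rfl⟩ := h.surj b
    rw [← map_add, key, key, key, map_add]
  · obtain ⟨a, rfl⟩ := h.surj a
    obtain ⟨s, rfl⟩ := RingHomSurjective.is_surjective (σ := π) s
    rw [← map_smulₛₗ]
    dsimp only
    rw [key, key, map_smulₛₗ]
    rfl

theorem IsRed.free {θ : M →ₛₗ[π] M'} (h : IsRed θ) [Module.Free E M] : Module.Free S M' := by
  let b := Module.Free.chooseBasis E M
  refine Module.Free.of_basis (Module.Basis.mk (v := fun k => θ (b k)) ?_ ?_)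
  · rw [linearIndependent_iff']
    intro s c hc k hk
    choose e he using fun k => RingHomSurjective.is_surjective (σ := π) (c k)
    have h1 : ∑ k ∈ s, e k • b k ∈ RingHom.ker π • (⊤ : Submodule E M) :=
      h.ker _ (by simp only [map_sum, map_smulₛₗ, he, hc])
    have h2 := red_zero (π.toSemilinearMap ∘ₛₗ b.coord k) h1
    classical
    simpa [Finsupp.single_apply, Finset.sum_ite_eq', hk, he, apply_ite π] using h2
  · intro y _
    obtain ⟨x, rfl⟩ := h.surj y
    rw [show Set.range (fun k => θ (b k)) = θ '' Set.range b from Set.range_comp _ _,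
      ← Submodule.map_span, b.span_eq]
    exact Submodule.mem_map_of_mem trivial

end

theorem exists_red (π : E →+* S) [RingHomSurjective π] (M : Type) [AddCommGroup M] [Module E M] :
    ∃ (M' : Type) (_ : AddCommGroup M') (_ : Module S M') (θ : M →ₛₗ[π] M'), IsRed θ := by
  have hπ := RingHomSurjective.is_surjective (σ := π)
  let N : Submodule E M := RingHom.ker π • ⊤
  let _ : SMul S (M ⧸ N) := ⟨fun s x => surjInv hπ s • x⟩
  have key : ∀ (c : E) (x : M ⧸ N), π c • x = c • x := fun c x => by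
    obtain ⟨x, rfl⟩ := N.mkQ_surjective x
    change surjInv hπ (π c) • N.mkQ x = _
    rw [← sub_eq_zero, ← sub_smul, ← map_smul, Submodule.mkQ_apply, Submodule.Quotient.mk_eq_zero]
    exact Submodule.smul_mem_smul (by rw [RingHom.mem_ker, map_sub, surjInv_eq hπ, sub_self])
      trivial
  let _ : Module S (M ⧸ N) := hπ.moduleLeft π key
  exact ⟨M ⧸ N, inferInstance, inferInstance,
    ⟨N.mkQ.toAddMonoidHom.toAddHom, fun c x => (N.mkQ.map_smul c x).trans (key c _).symm⟩,
    N.mkQ_surjective, fun x hx => (Submodule.Quotient.mk_eq_zero N).1 hx⟩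

theorem FFR.red [RingHomSurjective π] (D : Dual π) {M : Type} [AddCommGroup M] [Module E M]
    (h : FFR E M) : ∀ (L₂ : Type) [AddCommGroup L₂] [Module E L₂] [Module.Free E L₂]
      (u : M →ₗ[E] L₂), Injective u → ∀ (M' : Type) [AddCommGroup M'] [Module S M']
      (θ : M →ₛₗ[π] M'), IsRed θ → FFR S M' := by
  induction h with
  | free M h1 h2 =>
    intro _ _ _ _ _ _ M' _ _ θ hθ
    exact .free _ (Module.Finite.of_surjective θ hθ.surj) hθ.free
  | step K L M i p hi hip hp h1 h2 _ ih =>
    intro L₂ _ _ _ u hu M' _ _ θ hθ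
    obtain ⟨L', _, _, θL, hL⟩ := exists_red π L
    obtain ⟨p', hp'⟩ := hL.lift (θ ∘ₛₗ p)
    let θK : K →ₛₗ[π] LinearMap.ker p' := (θL ∘ₛₗ i).codRestrict _ fun k => by
      rw [LinearMap.mem_ker, LinearMap.comp_apply, hp', LinearMap.comp_apply,
        hip.apply_apply_eq_zero, map_zero]
    refine .step _ L' M' (LinearMap.ker p').subtype p' (Submodule.injective_subtype _)
      (LinearMap.exact_subtype_ker_map _) (fun y => ?_) (Module.Finite.of_surjective θL hL.surj)
      hL.free (ih L i hi _ θK ⟨fun y => ?_, fun k hk => ?_⟩)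
    · obtain ⟨x, rfl⟩ := hθ.surj y
      obtain ⟨x, rfl⟩ := hp x
      exact ⟨θL x, hp' x⟩
    · obtain ⟨l, hl⟩ := hL.surj y.1
      have h3 : p l ∈ RingHom.ker π • (⊤ : Submodule E M) :=
        hθ.ker _ ((hp' l).symm.trans (by rw [hl]; exact y.2))
      rw [← LinearMap.range_eq_top.2 hp, LinearMap.range_eq_map, ← Submodule.map_smul''] at h3
      obtain ⟨l', h4, h5⟩ := h3
      obtain ⟨k, hk⟩ := (hip (l - l')).1 (by rw [map_sub, h5, sub_self])
      refine ⟨k, Subtype.ext ?_⟩
      change θL (i k) = _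
      rw [hk, map_sub, red_zero θL h4, sub_zero, hl]
    · have h3 := D.flat (u ∘ₗ p) (hL.ker (i k) (congrArg Subtype.val hk))
        (by rw [LinearMap.comp_apply, hip.apply_apply_eq_zero, map_zero])
      rw [LinearMap.ker_comp_of_ker_eq_bot p (LinearMap.ker_eq_bot.2 hu), hip.linearMap_ker_eq,
        LinearMap.range_eq_map, ← Submodule.map_smul''] at h3
      obtain ⟨k', h4, h5⟩ := h3
      exact hi h5 ▸ h4

/-- the map out of an induced module -/
noncomputable def indMap {A : Type} [CommRing A] (S : Type) [Ring S] [Algebra A S] {N P : Type}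
    [AddCommGroup N] [Module A N] [AddCommGroup P] [Module A P] [Module S P]
    [IsScalarTower A S P] (ψ : N →ₗ[A] P) : S ⊗[A] N →ₗ[S] P :=
  AlgebraTensorModule.lift (LinearMap.toSpanSingleton S _ ψ)

theorem indMap_tmul {A : Type} [CommRing A] {S : Type} [Ring S] [Algebra A S] {N P : Type}
    [AddCommGroup N] [Module A N] [AddCommGroup P] [Module A P] [Module S P]
    [IsScalarTower A S P] (ψ : N →ₗ[A] P) (s : S) (n : N) : indMap S ψ (s ⊗ₜ n) = s • ψ n := rfl

theorem FFR.coker2 {R : Type} [Ring R] {X Y Z Q : Type} [AddCommGroup X] [Module R X]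
    [AddCommGroup Y] [Module R Y] [AddCommGroup Z] [Module R Z] [AddCommGroup Q] [Module R Q]
    (f : X →ₗ[R] Y) (g : Y →ₗ[R] Z) (q : Z →ₗ[R] Q) (hf : Injective f) (hfg : Exact f g)
    (hgq : Exact g q) (hq : Surjective q) (hX : FFR R X) (hY : FFR R Y) (hZ : FFR R Z) :
    FFR R Q :=
  FFR.coker (LinearMap.range g).subtype q (Submodule.injective_subtype _)
    (fun z => (hgq z).trans ⟨fun h => ⟨⟨z, h⟩, rfl⟩, fun ⟨y, h⟩ => h ▸ y.2⟩) hq
    (FFR.coker f g.rangeRestrict hf (fun y => Iff.trans ⟨fun h => congrArg Subtype.val h,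
      fun h => Subtype.ext h⟩ (hfg y))
      g.surjective_rangeRestrict hX hY) hZ

end Pool.Agent.Lib.TwoDim
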