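import Pool.Agent.Lib.TwoDim.Der
import Pool.Agent.Lib.TwoDim.Red

/-! Finitely generated submodules of free modules over the group ring of a free group have finite
free resolutions. -/

noncomputable section

namespace Pool.Agent.Lib.TwoDim

open Function TensorProduct MonoidAlgebra

namespace Tr

variable {A F X : Type} [CommRing A] [Group F] {n : ℕ}

/-- vectors -/
abbrev Z (A F : Type) [CommRing A] (n : ℕ) : Type := Fin n → MonoidAlgebra A F

/-- group elements -/
abbrev o (A : Type) [CommRing A] (g : F) : MonoidAlgebra A F := single g 1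

theorem o_mul (g h : F) : o A g * o A h = o A (g * h) := by
  rw [single_mul_single, mul_one]

theorem o_smul (g h : F) (m : Z A F n) : o A g • o A h • m = o A (g * h) • m := by
  rw [← mul_smul, o_mul]

theorem o_one (m : Z A F n) : o A (1 : F) • m = m := one_smul _ m

theorem o_coeff (g y : F) (m : Z A F n) (k : Fin n) :
    ((o A g • m) k).coeff y = (m k).coeff (g⁻¹ * y) := by
  rw [Pi.smul_apply, smul_eq_mul, coeff_single_mul_apply, one_mul]

/-- the action as a linear map -/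
def act (g : F) : Z A F n →ₗ[A] Z A F n := DistribSMul.toLinearMap A _ (o A g)

/-- a vector placed at a vertex -/
def P (g : F) : Z A F n →ₗ[A] MonoidAlgebra A F ⊗[A] Z A F n :=
  TensorProduct.mk A _ _ (o A g) ∘ₗ act g⁻¹

/-- a vector placed at an edge -/
def Q (e : F × X) : Z A F n →ₗ[A] MonoidAlgebra A F ⊗[A] (X →₀ Z A F n) :=
  TensorProduct.mk A _ _ (o A e.1) ∘ₗ Finsupp.lsingle e.2 ∘ₗ act e.1⁻¹

theorem P_apply (g : F) (m : Z A F n) : P g m = o A g ⊗ₜ[A] (o A g⁻¹ • m) := rfl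

theorem Q_apply (e : F × X) (m : Z A F n) :
    Q e m = o A e.1 ⊗ₜ[A] Finsupp.single e.2 (o A e.1⁻¹ • m) := rfl

/-- the boundary map -/
def δ (b : FreeGroupBasis X F) : MonoidAlgebra A F ⊗[A] (X →₀ Z A F n) →ₗ[MonoidAlgebra A F]
    MonoidAlgebra A F ⊗[A] Z A F n :=
  indMap _ (Finsupp.lsum A fun x => P (b x) - P 1)

/-- the augmentation -/
def μ : MonoidAlgebra A F ⊗[A] Z A F n →ₗ[MonoidAlgebra A F] Z A F n :=
  indMap _ LinearMap.id

theorem μ_tmul (e : MonoidAlgebra A F) (m : Z A F n) : μ (e ⊗ₜ[A] m) = e • m := rfl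

theorem μ_P (g : F) (m : Z A F n) : μ (P g m) = m := by
  rw [P_apply, μ_tmul, o_smul, mul_inv_cancel, o_one]

variable {b : FreeGroupBasis X F} {c : F → F × X →₀ ℤ}

theorem δ_tmul (e : MonoidAlgebra A F) (x : X) (m : Z A F n) :
    δ b (e ⊗ₜ[A] Finsupp.single x m) = e • (P (b x) m - P (1 : F) m) := by
  rw [δ, indMap_tmul, Finsupp.lsum_single]
  rfl

theorem δ_Q (e : F × X) (m : Z A F n) : δ b (Q e m) = P (e.1 * b e.2) m - P e.1 m := by
  simp only [Q_apply, δ_tmul, P_apply, smul_sub, smul_tmul', smul_eq_mul, o_mul, o_smul,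
    mul_inv_rev, mul_one, inv_one, one_mul]

open Classical in
/-- the contraction -/
def h (c : F → F × X →₀ ℤ) : MonoidAlgebra A F ⊗[A] Z A F n →ₗ[A]
    MonoidAlgebra A F ⊗[A] (X →₀ Z A F n) :=
  (Finsupp.lsum A fun u => Finsupp.linearCombination ℤ Q (c u) ∘ₗ act u) ∘ₗ
    (equivFinsuppOfBasisLeft (MonoidAlgebra.basis F A)).toLinearMap

theorem h_tmul (u : F) (m : Z A F n) :
    h c (o A u ⊗ₜ[A] m) = Finsupp.linearCombination ℤ Q (c u) (o A u • m) := by
  classical
  have e : equivFinsuppOfBasisLeft (MonoidAlgebra.basis F A) (o A u ⊗ₜ[A] m) =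
      Finsupp.single u m := by
    rw [← LinearEquiv.eq_symm_apply, equivFinsuppOfBasisLeft_symm_apply,
      Finsupp.sum_single_index (by rw [tmul_zero])]
    rfl
  rw [h, LinearMap.comp_apply, LinearEquiv.coe_coe, e, Finsupp.lsum_single]
  rfl

theorem h_P (u : F) (m : Z A F n) : h c (P u m) = Finsupp.linearCombination ℤ Q (c u) m := by
  rw [P_apply, h_tmul, o_smul, mul_inv_cancel, o_one]

theorem tens_ind {N : Type} [AddCommGroup N] [Module A N] {p : MonoidAlgebra A F ⊗[A] N → Prop}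
    (h0 : p 0) (h1 : ∀ g m, p (o A g ⊗ₜ m)) (h2 : ∀ s t, p s → p t → p (s + t))
    (t : MonoidAlgebra A F ⊗[A] N) : p t := by
  obtain ⟨z, rfl⟩ := eq_repr_basis_left (MonoidAlgebra.basis F A) t
  exact Finset.sum_induction _ p h2 h0 fun g _ => h1 g _

theorem h_δ (hc : Geo b c) (t : MonoidAlgebra A F ⊗[A] (X →₀ Z A F n)) : h c (δ b t) = t := by
  induction t using tens_ind with
  | h0 => rw [map_zero, map_zero]
  | h2 s t hs ht => rw [map_add, map_add, hs, ht]
  | h1 g m =>
    induction m using Finsupp.induction_linear with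
    | zero => rw [tmul_zero, map_zero, map_zero]
    | add s t hs ht => rw [tmul_add, map_add, map_add, hs, ht]
    | single x m =>
      have e : o A g ⊗ₜ[A] Finsupp.single x m = Q (g, x) (o A g • m) := by
        rw [Q_apply, o_smul, inv_mul_cancel, o_one]
      rw [e, δ_Q, map_sub, h_P, h_P, hc.step, map_add, LinearMap.add_apply, add_sub_cancel_left,
        Finsupp.linearCombination_single, one_smul]

theorem δ_h (hc : Geo b c) (t : MonoidAlgebra A F ⊗[A] Z A F n) :
    δ b (h c t) = t - P (1 : F) (μ t) := by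
  induction t using tens_ind with
  | h0 => simp
  | h2 s t hs ht =>
    rw [map_add, map_add, hs, ht, map_add, map_add]
    abel
  | h1 g m =>
    have e : o A g ⊗ₜ[A] m = P g (o A g • m) := by
      rw [P_apply, o_smul, inv_mul_cancel, o_one]
    rw [e, h_P, μ_P, ← hc.bd fun g' => P g' (o A g • m)]
    simp only [Finsupp.linearCombination_apply, Finsupp.sum, LinearMap.sum_apply, map_sum,
      LinearMap.smul_apply, map_zsmul, δ_Q]

theorem μ_δ (t : MonoidAlgebra A F ⊗[A] (X →₀ Z A F n)) : μ (δ b t) = 0 := by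
  induction t using TensorProduct.induction_on with
  | zero => rw [map_zero, map_zero]
  | add s t hs ht => rw [map_add, map_add, hs, ht, add_zero]
  | tmul g m =>
    induction m using Finsupp.induction_linear with
    | zero => rw [tmul_zero, map_zero, map_zero]
    | add s t hs ht => rw [tmul_add, map_add, map_add, hs, ht, add_zero]
    | single x m => rw [δ_tmul, map_smul, map_sub, μ_P, μ_P, sub_self, smul_zero]

/-- the vertex module -/
def M (V : Submodule (MonoidAlgebra A F) (Z A F n)) (Θ : Set F) : Submodule A (Z A F n) :=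
  V.restrictScalars A ⊓ Submodule.pi Set.univ fun _ => supported A A Θ⁻¹

theorem mem_M {V : Submodule (MonoidAlgebra A F) (Z A F n)} {Θ : Set F} {m : Z A F n} :
    m ∈ M V Θ ↔ m ∈ V ∧ ∀ k y, (m k).coeff y ≠ 0 → y⁻¹ ∈ Θ :=
  and_congr Iff.rfl ⟨fun h k _ hy => h k trivial (Finsupp.mem_support_iff.2 hy),
    fun h k _ y hy => h k y (Finsupp.mem_support_iff.1 hy)⟩

theorem M_fg [IsNoetherianRing A] (V : Submodule (MonoidAlgebra A F) (Z A F n)) {Θ : Set F}
    (hΘ : Θ.Finite) : (M V Θ).FG :=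
  Submodule.FG.of_le (Submodule.fg_pi fun _ => by
    rw [supported_eq_span_single]
    exact Submodule.fg_span (hΘ.inv.image _)) inf_le_right

/-- the edge module -/
def B (b : FreeGroupBasis X F) (V : Submodule (MonoidAlgebra A F) (Z A F n)) (Θ : Set F) :
    Submodule A (X →₀ Z A F n) :=
  ⨅ x, (M V Θ ⊓ (M V Θ).comap (act (b x)⁻¹)).comap (Finsupp.lapply x)

theorem mem_B {V : Submodule (MonoidAlgebra A F) (Z A F n)} {Θ : Set F} {z : X →₀ Z A F n} :
    z ∈ B b V Θ ↔ ∀ x, z x ∈ M V Θ ∧ o A (b x)⁻¹ • z x ∈ M V Θ :=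
  Submodule.mem_iInf _

theorem B_fg [IsNoetherianRing A] (V : Submodule (MonoidAlgebra A F) (Z A F n)) {Θ : Set F}
    (hΘ : Θ.Finite) : (B b V Θ).FG := by
  have h1 : (b ⁻¹' Set.image2 (fun s t => s⁻¹ * t) Θ Θ).Finite :=
    (hΘ.image2 _ hΘ).preimage b.injective.injOn
  refine (Submodule.fg_biSup h1.toFinset (fun x => (M V Θ).map (Finsupp.lsingle x))
    fun x _ => (M_fg V hΘ).map _).of_le fun z hz => ?_
  rw [← z.sum_single]
  refine Submodule.sum_mem _ fun x hx => Submodule.mem_iSup_of_mem x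
    (Submodule.mem_iSup_of_mem ?_ ⟨z x, (mem_B.1 hz x).1, rfl⟩)
  obtain ⟨k, hk⟩ := Function.ne_iff.1 (Finsupp.mem_support_iff.1 hx)
  obtain ⟨y, hy⟩ := DFunLike.ne_iff.1 (coeff_eq_zero.not.2 hk)
  refine h1.mem_toFinset.2 ⟨y⁻¹, (mem_M.1 (mem_B.1 hz x).1).2 k y hy, ((b x)⁻¹ * y)⁻¹,
    (mem_M.1 (mem_B.1 hz x).2).2 k _ ?_, by simp⟩
  rwa [o_coeff, inv_inv, mul_inv_cancel_left]

theorem h_mem (hc : Geo b c) {V : Submodule (MonoidAlgebra A F) (Z A F n)} {Θ : Set F}
    (hΘ : Cl b c Θ) {t : MonoidAlgebra A F ⊗[A] Z A F n}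
    (ht : t ∈ (M V Θ).baseChange (MonoidAlgebra A F)) (h0 : μ t = 0) :
    h c t ∈ (B b V Θ).baseChange (MonoidAlgebra A F) := by
  classical
  obtain ⟨t, rfl⟩ := ht
  obtain ⟨z, rfl⟩ := eq_repr_basis_left (MonoidAlgebra.basis F A) t
  simp only [Finsupp.sum, map_sum, LinearMap.baseChange_tmul, MonoidAlgebra.basis_apply, μ_tmul,
    h_tmul, Submodule.subtype_apply] at h0 ⊢
  let T := z.support.biUnion fun u => (c u).support
  have e : ∑ u ∈ z.support, Finsupp.linearCombination ℤ Q (c u) (o A u • (z u).1) =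
      ∑ e ∈ T, Q e (∑ u ∈ z.support, c u e • o A u • (z u).1) := by
    simp only [map_sum, map_zsmul]
    rw [Finset.sum_comm]
    refine Finset.sum_congr rfl fun u hu => ?_
    rw [Finsupp.linearCombination_apply, Finsupp.sum_of_support_subset _
      (Finset.subset_biUnion_of_mem (fun u => (c u).support) hu) _ (fun _ _ => by rw [zero_smul]),
      LinearMap.sum_apply]
    rfl
  rw [e]
  refine Submodule.sum_mem _ fun ⟨v, x⟩ _ => ?_
  obtain ⟨m, hm⟩ : ∃ m, m = ∑ u ∈ z.support, c u (v, x) • o A u • (z u).1 := ⟨_, rfl⟩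
  have hV : m ∈ V := hm ▸ V.sum_mem fun u _ => zsmul_mem (V.smul_mem _ (mem_M.1 (z u).2).1) _
  have key : ∀ k y, (m k).coeff y ≠ 0 → y⁻¹ * v ∈ Θ ∧ y⁻¹ * v * b x ∈ Θ := fun k y hy => by
    have h1 : m = ∑ u ∈ z.support, (c u (v, x) - c y (v, x)) • o A u • (z u).1 := by
      simp only [sub_smul, Finset.sum_sub_distrib, ← Finset.smul_sum, h0, smul_zero, sub_zero, hm]
    rw [h1, Finset.sum_apply, coeff_sum, Finsupp.finsetSum_apply] at hy
    obtain ⟨u, -, hu⟩ := Finset.exists_ne_zero_of_sum_ne_zero hy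
    rw [Pi.smul_apply, coeff_smul_apply, o_coeff] at hu
    refine hΘ _ ((mem_M.1 (z u).2).2 k _ (right_ne_zero_of_smul hu)) _ _ fun h2 => hu ?_
    have h3 := hc.tr y (u⁻¹ * y)⁻¹ (y⁻¹ * v) x
    rw [h2, add_zero, mul_inv_rev, inv_inv, mul_inv_cancel_left, mul_inv_cancel_left] at h3
    rw [h3, sub_self, zero_smul]
  rw [← hm, Q_apply]
  refine Submodule.tmul_mem_baseChange_of_mem _ (mem_B.2 fun x' => ?_)
  by_cases hx : x = x'
  · subst hx
    rw [Finsupp.single_eq_same, o_smul]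
    refine ⟨mem_M.2 ⟨V.smul_mem _ hV, fun k y hy => ?_⟩, mem_M.2 ⟨V.smul_mem _ hV, fun k y hy => ?_⟩⟩
    · rw [o_coeff] at hy
      simpa using (key k _ hy).1
    · rw [o_coeff] at hy
      simpa [mul_assoc] using (key k _ hy).2
  · rw [Finsupp.single_eq_of_ne' hx, smul_zero]
    exact ⟨Submodule.zero_mem _, Submodule.zero_mem _⟩

end Tr

open Tr in
theorem tree {A F : Type} [CommRing A] [Group F] [IsFreeGroup F] (hA : Good A) {n : ℕ}
    (V : Submodule (MonoidAlgebra A F) (Fin n → MonoidAlgebra A F)) (hV : V.FG) :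
    FFR (MonoidAlgebra A F) V := by
  have := hA.noeth
  let b := IsFreeGroup.basis F
  obtain ⟨c, hc⟩ := exists_geo b
  obtain ⟨s, hs⟩ := hV
  obtain ⟨Θ, h1, h2, h3⟩ := hc.exists_cl
    (s := ⋃ m ∈ s, ⋃ k, ((m k).coeff.support : Set F)⁻¹)
    (s.finite_toSet.biUnion fun m _ => Set.finite_iUnion fun k => (Finset.finite_toSet _).inv)
  have f0 : FFR _ ((M V Θ).baseChange (MonoidAlgebra A F)) :=
    ((hA.ffr (M V Θ) (Module.Finite.iff_fg.2 (M_fg V h1))).baseChange (MonoidAlgebra A F)).equiv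
      (Submodule.toBaseChange.toLinearEquiv (MonoidAlgebra A F) (M V Θ))
  have f1 : FFR _ ((B b V Θ).baseChange (MonoidAlgebra A F)) :=
    ((hA.ffr (B b V Θ) (Module.Finite.iff_fg.2 (B_fg V h1))).baseChange (MonoidAlgebra A F)).equiv
      (Submodule.toBaseChange.toLinearEquiv (MonoidAlgebra A F) (B b V Θ))
  have m1 : ∀ t ∈ (B b V Θ).baseChange (MonoidAlgebra A F),
      δ b t ∈ (M V Θ).baseChange (MonoidAlgebra A F) := by
    rintro _ ⟨t, rfl⟩
    induction t using TensorProduct.induction_on with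
    | zero => rw [map_zero, map_zero]; exact Submodule.zero_mem _
    | add s t hs ht => rw [map_add, map_add]; exact Submodule.add_mem _ hs ht
    | tmul e z =>
      rw [LinearMap.baseChange_tmul, Submodule.subtype_apply, ← z.1.sum_single, Finsupp.sum,
        tmul_sum, map_sum]
      refine Submodule.sum_mem _ fun x _ => ?_
      rw [δ_tmul, P_apply, P_apply, inv_one, o_one]
      exact Submodule.smul_mem _ _ (Submodule.sub_mem _
        (Submodule.tmul_mem_baseChange_of_mem _ (mem_B.1 z.2 x).2)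
        (Submodule.tmul_mem_baseChange_of_mem _ (mem_B.1 z.2 x).1))
  have m0 : ∀ t ∈ (M V Θ).baseChange (MonoidAlgebra A F), μ t ∈ V := by
    rintro _ ⟨t, rfl⟩
    induction t using TensorProduct.induction_on with
    | zero => rw [map_zero, map_zero]; exact Submodule.zero_mem _
    | add s t hs ht => rw [map_add, map_add]; exact Submodule.add_mem _ hs ht
    | tmul e z => exact V.smul_mem _ (mem_M.1 z.2).1
  refine FFR.coker ((δ b).restrict m1) (μ.restrict m0) (fun s t e => Subtype.ext ?_)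
    (fun t => ⟨fun e => ?_, ?_⟩) (fun v => ?_) f1 f0
  · rw [← h_δ hc s.1, ← h_δ hc t.1]
    exact congrArg (h c) (congrArg Subtype.val e)
  · have e' : μ t.1 = 0 := congrArg Subtype.val e
    refine ⟨⟨_, h_mem hc h2 t.2 e'⟩, Subtype.ext ?_⟩
    rw [LinearMap.coe_restrict_apply, δ_h hc, e', map_zero, sub_zero]
  · rintro ⟨t, rfl⟩
    exact Subtype.ext (μ_δ _)
  · have : V ≤ ((M V Θ).baseChange (MonoidAlgebra A F)).map μ := by
      conv_lhs => rw [← hs]
      refine Submodule.span_le.2 fun m hm => ⟨1 ⊗ₜ m, Submodule.tmul_mem_baseChange_of_mem _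
        (mem_M.2 ⟨hs ▸ Submodule.subset_span hm, fun k y hy => h3 ?_⟩),
        (μ_tmul 1 m).trans (one_smul _ m)⟩
      exact Set.mem_biUnion hm (Set.mem_iUnion.2 ⟨k, by simpa using hy⟩)
    obtain ⟨t, ht, e⟩ := this v.2
    exact ⟨⟨t, ht⟩, Subtype.ext e⟩

end Pool.Agent.Lib.TwoDim
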