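import Pool.Agent.Lib.TwoDim.Core
import Pool.Agent.Lib.TwoDim.Defs
import Pool.Agent.Lib.TwoDim.Tree

/-! The dual functionals attached to an aspherical presentation. -/

noncomputable section

namespace Pool.Agent.Lib.TwoDim

open Function MonoidAlgebra Tr

variable {A F G : Type} [CommRing A] [Group F] [Group G]

namespace Xi

variable {I : Type}

/-- right multiplication -/
def rm (e : MonoidAlgebra A F) : (I →₀ MonoidAlgebra A F) →ₗ[A] (I →₀ MonoidAlgebra A F) :=
  Finsupp.mapRange.linearMap (LinearMap.mulRight A e)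

theorem rm_apply (e : MonoidAlgebra A F) (z : I →₀ MonoidAlgebra A F) (i : I) :
    rm e z i = z i * e := rfl

theorem rm_rm (e e' : MonoidAlgebra A F) (z : I →₀ MonoidAlgebra A F) :
    rm e (rm e' z) = rm (e' * e) z := Finsupp.ext fun i => mul_assoc _ _ _

theorem rm_one (z : I →₀ MonoidAlgebra A F) : rm (o A (1 : F)) z = z :=
  Finsupp.ext fun i => mul_one _

/-- pairing with a row -/
def T (a : I → MonoidAlgebra A F) : (I →₀ MonoidAlgebra A F) →ₗ[A] MonoidAlgebra A F :=
  Finsupp.lsum A fun i => LinearMap.mulLeft A (a i)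

theorem T_single (a : I → MonoidAlgebra A F) (i : I) (e : MonoidAlgebra A F) :
    T a (Finsupp.single i e) = a i * e := by
  rw [T, Finsupp.lsum_single]
  rfl

theorem T_rm (a : I → MonoidAlgebra A F) (e : MonoidAlgebra A F) (z : I →₀ MonoidAlgebra A F) :
    T a (rm e z) = T a z * e := by
  induction z using Finsupp.induction_linear with
  | zero => simp
  | add x y hx hy => rw [map_add, map_add, hx, hy, map_add, add_mul]
  | single i x =>
    rw [rm, Finsupp.mapRange.linearMap_apply, Finsupp.mapRange_single, T_single, T_single,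
      mul_assoc]
    rfl

theorem exists_rder {N : Subgroup F} (b : FreeGroupBasis I N) :
    ∃ D : N → I →₀ MonoidAlgebra A F, (∀ g h, D (g * h) = rm (o A h.1) (D g) + D h) ∧
      ∀ i, D (b i) = Finsupp.single i 1 := by
  obtain ⟨c, h1, h2⟩ := exists_der b (M := I →₀ MonoidAlgebra A F)
    (fun g => (rm (o A g.1⁻¹)).toAddMonoidHom) (fun m => by simp [rm_one])
    (fun g h m => by simp [rm_rm, o_mul]) fun i => Finsupp.single i (o A (b i).1⁻¹)
  refine ⟨fun g => rm (o A g.1) (c g), fun g h => ?_, fun i => ?_⟩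
  · simp [h1, rm_rm, o_mul]
  · simp [h2, rm, o_mul, one_def]

variable (p : F →* G)

/-- the projection of group rings -/
abbrev pr (A : Type) [CommRing A] (p : F →* G) : MonoidAlgebra A F →+* MonoidAlgebra A G :=
  mapDomainRingHom A p

theorem pr_o (f : F) : pr A p (o A f) = o A (p f) := mapDomain_single

theorem pr_smul (a : A) (e : MonoidAlgebra A F) : pr A p (a • e) = a • pr A p e :=
  mapDomain_smul _ _ _

theorem alg_ind {q : MonoidAlgebra A F → Prop} (h0 : ∀ f, q (o A f))
    (h1 : ∀ x y, q x → q y → q (x + y)) (h2 : ∀ (a : A) x, q x → q (a • x))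
    (e : MonoidAlgebra A F) : q e :=
  MonoidAlgebra.induction_on e h0 h1 h2

variable {p} {b : FreeGroupBasis I p.ker} {D : p.ker → I →₀ MonoidAlgebra A F}
  (h1 : ∀ g h, D (g * h) = rm (o A h.1) (D g) + D h) (h2 : ∀ i, D (b i) = Finsupp.single i 1)

include h1 in
theorem D_one : D 1 = 0 := by
  have := h1 1 1
  rw [mul_one, OneMemClass.coe_one, rm_one] at this
  exact left_eq_add.1 this

include h1 h2 in
theorem fox (g : p.ker) : T (fun i => o A (b i).1 - 1) (D g) = o A g.1 - 1 := by
  induction g using basis_ind b with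
  | h1 => rw [D_one h1, map_zero]; exact (sub_self _).symm
  | h2 g x ih =>
    rw [h1, h2, map_add, T_rm, ih, T_single, mul_one, sub_mul, o_mul, one_mul, sub_add_sub_cancel]
    rfl
  | h3 g x ih =>
    rw [h1, h2, map_add, T_rm, T_single, mul_one, ← eq_sub_iff_add_eq, sub_sub_sub_cancel_right]
      at ih
    have := congrArg (· * o A (b x).1⁻¹) ih
    simpa [mul_assoc, sub_mul, o_mul, ← one_def] using this

include h1 h2 in
theorem chi (χ : Additive (Abelianization p.ker) →ₗ[ℤ] ℤ) (g : p.ker) :
    pr A p (T (fun i => (χ (Additive.ofMul (Abelianization.of (b i))) : ℤ)) (D g)) =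
      (χ (Additive.ofMul (Abelianization.of g)) : ℤ) := by
  have e : ∀ g : p.ker, pr A p (o A g.1) = 1 := fun g => by
    rw [pr_o, show p g.1 = 1 from g.2]
    rfl
  induction g using basis_ind b with
  | h1 => simp [D_one h1]
  | h2 g x ih =>
    rw [h1, h2, map_add, T_rm, T_single, map_add, map_mul, ih, e, mul_one, mul_one, map_intCast,
      map_mul, ofMul_mul, map_add, Int.cast_add]
  | h3 g x ih =>
    rw [h1, h2, map_add, T_rm, T_single, map_add, map_mul, e, mul_one, mul_one, map_intCast,
      map_mul, ofMul_mul, map_add, Int.cast_add] at ih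
    exact add_right_cancel ih

variable {σ : G → F} (hσ : ∀ g, p (σ g) = g)

/-- the kernel component of an element -/
def nf (f : F) : p.ker := ⟨f * (σ (p f))⁻¹, by simp [hσ]⟩

/-- coordinates -/
def η (D : p.ker → I →₀ MonoidAlgebra A F) : MonoidAlgebra A F →ₗ[A] (I →₀ MonoidAlgebra A F) :=
  (MonoidAlgebra.basis F A).constr A fun f => rm (o A (σ (p f))) (D (nf hσ f))

theorem η_o (f : F) : η hσ D (o A f) = rm (o A (σ (p f))) (D (nf hσ f)) :=
  (MonoidAlgebra.basis F A).constr_basis A _ f

include h1 in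
theorem η_mul (j e : MonoidAlgebra A F) (hj : pr A p j = 0) : η hσ D (j * e) = rm e (η hσ D j) := by
  induction e using alg_ind with
  | h1 x y hx hy =>
    rw [mul_add, map_add, hx, hy]
    exact Finsupp.ext fun i => (mul_add _ _ _).symm
  | h2 a x hx =>
    rw [mul_smul_comm, map_smul, hx]
    exact Finsupp.ext fun i => (mul_smul_comm _ _ _).symm
  | h0 h =>
    let Ψ : MonoidAlgebra A G →ₗ[A] (I →₀ MonoidAlgebra A F) :=
      (MonoidAlgebra.basis G A).constr A fun g => η hσ D (o A (σ g * h))
    have key : ∀ j, η hσ D (j * o A h) = rm (o A h) (η hσ D j) + Ψ (pr A p j) := fun j => by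
      induction j using alg_ind with
      | h1 x y hx hy =>
        simp only [add_mul, map_add, hx, hy]
        abel
      | h2 a x hx => rw [smul_mul_assoc, map_smul, hx, pr_smul, map_smul, map_smul, map_smul, smul_add]
      | h0 f =>
        have e1 : Ψ (o A (p f)) = η hσ D (o A (σ (p f) * h)) :=
          (MonoidAlgebra.basis G A).constr_basis A _ (p f)
        have e2 : nf hσ (f * h) = nf hσ f * nf hσ (σ (p f) * h) :=
          Subtype.ext (by simp [nf, hσ, mul_assoc])
        rw [pr_o, e1, o_mul, η_o, η_o, η_o, e2, h1, map_add, rm_rm, rm_rm, o_mul, o_mul]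
        simp [nf, hσ]
    rw [key, hj, map_zero, add_zero]

include h1 h2 in
theorem η_sum (j : MonoidAlgebra A F) (hj : pr A p j = 0) :
    T (fun i => o A (b i).1 - 1) (η hσ D j) = j := by
  have key : ∀ j, T (fun i => o A (b i).1 - 1) (η hσ D j) =
      j - mapDomainLinearMap A A σ (pr A p j) := fun j => by
    induction j using alg_ind with
    | h1 x y hx hy =>
      simp only [map_add, hx, hy]
      abel
    | h2 a x hx => rw [map_smul, map_smul, hx, pr_smul, map_smul, smul_sub]
    | h0 f =>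
      rw [η_o, T_rm, fox h1 h2, pr_o, mapDomainLinearMap_single, sub_mul, o_mul, one_mul]
      simp [nf]
  rw [key, hj, map_zero, sub_zero]

end Xi

open Xi

theorem relClass_congr {p : F →* G} {f f' : F} (h : p f = p f') (r : p.ker) :
    relClass p f r = relClass p f' r := by
  have e : MulAut.conjNormal f r = (⟨f * f'⁻¹, by simp [h]⟩ : p.ker) * MulAut.conjNormal f' r *
      (⟨f * f'⁻¹, by simp [h]⟩ : p.ker)⁻¹ := Subtype.ext (by simp [mul_assoc])
  refine congrArg Additive.ofMul ?_
  rw [e, map_mul Abelianization.of, map_mul Abelianization.of, map_inv Abelianization.of,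
    mul_inv_cancel_comm]

variable {R : Type} {p : F →* G} {r : R → p.ker} {σ : G → F}

theorem IsAspherical.span (h : IsAspherical p r σ) :
    ⊤ ≤ Submodule.span ℤ (Set.range fun q : G × R => relClass p (σ q.1) (r q.2)) := by
  rintro x -
  obtain ⟨⟨f, hf⟩, rfl⟩ : ∃ g : p.ker, Additive.ofMul (Abelianization.of g) = x :=
    QuotientGroup.mk_surjective x.toMul
  have hf' : f ∈ Subgroup.closure (Group.conjugatesOfSet (Set.range fun i => (r i : F))) :=
    h.gen.ge hf
  induction hf' using Subgroup.closure_induction with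
  | mem x hx =>
    obtain ⟨_, ⟨i, rfl⟩, hx⟩ := Group.mem_conjugatesOfSet_iff.1 hx
    obtain ⟨c, rfl⟩ := isConj_iff.1 hx
    exact Submodule.subset_span ⟨(p c, i), relClass_congr (h.sec _) _⟩
  | one => exact Submodule.zero_mem _
  | mul x y hx hy ih1 ih2 =>
    have := Submodule.add_mem _ (ih1 (h.gen.le hx)) (ih2 (h.gen.le hy))
    rwa [← ofMul_mul, ← map_mul] at this
  | inv x hx ih =>
    have := Submodule.neg_mem _ (ih (h.gen.le hx))
    rwa [← ofMul_inv, ← map_inv] at this

theorem IsAspherical.mem_span (h : IsAspherical p r σ) (g : p.ker) (e : MonoidAlgebra A F) :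
    (o A g.1 - 1) * e ∈ Submodule.span (MonoidAlgebra A F) {x | ∃ i e, x = (o A (r i).1 - 1) * e} := by
  obtain ⟨f, hf⟩ := g
  have hf' : f ∈ Subgroup.closure (Group.conjugatesOfSet (Set.range fun i => (r i : F))) :=
    h.gen.ge hf
  dsimp only
  clear hf
  induction hf' using Subgroup.closure_induction with
  | mem x hx =>
    obtain ⟨_, ⟨i, rfl⟩, hx⟩ := Group.mem_conjugatesOfSet_iff.1 hx
    obtain ⟨c, rfl⟩ := isConj_iff.1 hx
    have : (o A (c * r i * c⁻¹) - 1) * e = o A c • ((o A (r i).1 - 1) * (o A c⁻¹ * e)) := by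
      simp only [smul_eq_mul, sub_mul, mul_sub, ← mul_assoc, o_mul, one_mul, mul_inv_cancel,
        ← one_def]
    rw [this]
    exact Submodule.smul_mem _ _ (Submodule.subset_span ⟨i, _, rfl⟩)
  | one => rw [o, ← one_def, sub_self, zero_mul]; exact Submodule.zero_mem _
  | mul x y _ _ ih1 ih2 =>
    have : (o A (x * y) - 1) * e = o A x • ((o A y - 1) * e) + (o A x - 1) * e := by
      simp only [smul_eq_mul, sub_mul, mul_sub, ← mul_assoc, o_mul, one_mul, sub_add_sub_cancel]
    rw [this]
    exact Submodule.add_mem _ (Submodule.smul_mem _ _ ih2) ih1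
  | inv x _ ih =>
    have : (o A x⁻¹ - 1) * e = (-o A x⁻¹) • ((o A x - 1) * e) := by
      simp only [smul_eq_mul, sub_mul, mul_sub, ← mul_assoc, o_mul, one_mul, neg_mul,
        inv_mul_cancel, ← one_def]
      abel
    rw [this]
    exact Submodule.smul_mem _ _ ih

theorem IsAspherical.ffr [IsFreeGroup F] (h : IsAspherical p r σ) (hA : Good A) {n : ℕ}
    (Q : Submodule (MonoidAlgebra A G) (Fin n → MonoidAlgebra A G))
    [Module.FinitePresentation (MonoidAlgebra A G) Q] : FFR (MonoidAlgebra A G) Q := by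
  let b := IsFreeGroup.basis p.ker
  obtain ⟨D, h1, h2⟩ := exists_rder (A := A) b
  have : RingHomSurjective (pr A p) := ⟨fun y => by
    induction y using alg_ind with
    | h0 g => exact ⟨o A (σ g), by rw [pr_o, h.sec]⟩
    | h1 _ _ hx hy =>
      obtain ⟨x, rfl⟩ := hx
      obtain ⟨y, rfl⟩ := hy
      exact ⟨x + y, map_add _ _ _⟩
    | h2 a _ hx =>
      obtain ⟨x, rfl⟩ := hx
      exact ⟨a • x, pr_smul _ _ _⟩⟩
  have hs : ∀ g : p.ker, pr A p (o A g.1 - 1) = 0 := fun g => by
    rw [map_sub, map_one, pr_o, show p g.1 = 1 from g.2]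
    exact sub_self _
  let β := Module.Basis.mk h.ind h.span
  let ξ : G × R → MonoidAlgebra A F →+ MonoidAlgebra A F := fun q =>
    (LinearMap.mulLeft A (o A (σ q.1)⁻¹) ∘ₗ
      T (fun i => (β.coord q (Additive.ofMul (Abelianization.of (b i))) : ℤ)) ∘ₗ
        η h.sec D).toAddMonoidHom
  have hξ : ∀ q q' : G × R, pr A p (ξ q (o A (σ q'.1) * (o A (r q'.2).1 - 1))) =
      o A q.1⁻¹ * ((β.coord q (β q') : ℤ) * o A q'.1) := fun q q' => by
    have e1 : p (σ q'.1 * r q'.2) = q'.1 := by rw [map_mul, h.sec, (r q'.2).2, mul_one]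
    have e2 : nf h.sec (σ q'.1 * r q'.2) = MulAut.conjNormal (σ q'.1) (r q'.2) :=
      Subtype.ext (by simp only [nf, e1]; rfl)
    have e3 : nf h.sec (σ q'.1) = 1 := Subtype.ext (by simp [nf, h.sec])
    change pr A p (_ * T _ (η h.sec D _)) = _
    rw [mul_sub, o_mul, mul_one, map_sub, η_o, η_o, e1, e2, e3, D_one h1, map_zero, sub_zero, T_rm,
      map_mul, map_mul, chi h1 h2, pr_o, pr_o, map_inv, h.sec, h.sec, Module.Basis.mk_apply]
    rfl
  exact core (A := A) ⟨G, R, MonoidAlgebra.basis G A, fun g => o A (σ g),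
      fun g => by rw [pr_o, h.sec]; rfl, fun i => o A (r i).1 - 1, fun i => hs _,
      fun j hj => by
        rw [← η_sum h1 h2 h.sec j hj]
        exact Submodule.sum_mem _ fun i _ => h.mem_span _ _,
      ξ, fun q j e hj => by
        change _ * T _ (η h.sec D _) = _ * T _ (η h.sec D _) * e
        rw [η_mul h1 h.sec j e hj, T_rm, mul_assoc],
      fun q => by rw [hξ]; simp [o_mul, one_def],
      fun q q' hq => by simp [hξ, Finsupp.single_eq_of_ne' hq]⟩
    ⟨_, fun i => o A (b i).1 - 1, (η h.sec D).toAddMonoidHom, fun i => hs _,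
      fun j e i hj => DFunLike.congr_fun (η_mul h1 h.sec j e hj) i, η_sum h1 h2 h.sec⟩
    (fun a => by simp) hA (tree hA) Q

end Pool.Agent.Lib.TwoDim
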